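import Mathlib

/-!
# H84V: Vinogradov's lemma and Lemma P (part of the inverse theorem, MP_443e5f candidate T). Owner: helper84.

`nd x`: distance to the nearest integer. `Idx X κ K δ`: a finite set with a map `κ` to `[K, 2K)` whose fibres have at most
`|X| / (δ K)` elements. `ec R A B`: number of pairs in `A × B` which are related.
-/

open Finset

namespace Pool.Agent.Lib.H84V

/-- Distance to the nearest integer. -/
noncomputable def nd (x : ℝ) : ℝ := |x - round x|

/-- An index set: `κ` takes values in `[K, 2K)` and every value at most `|X| / (δ K)` times. -/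
structure Idx {ι : Type} (X : Finset ι) (κ : ι → ℕ) (K : ℕ) (δ : ℝ) : Prop where
  lo : ∀ x ∈ X, K ≤ κ x
  hi : ∀ x ∈ X, κ x < 2 * K
  fib : ∀ k : ℕ, δ * (((X.filter fun x => κ x = k).card : ℝ) * K) ≤ X.card

open Classical in
/-- The number of related pairs in `A × B`. -/
noncomputable def ec {ι ι' : Type} (R : ι → ι' → Prop) (A : Finset ι) (B : Finset ι') : ℕ :=
  ((A ×ˢ B).filter fun p => R p.1 p.2).card

theorem nd_nonneg (x : ℝ) : 0 ≤ nd x := abs_nonneg _

theorem nd_le_half (x : ℝ) : nd x ≤ 1 / 2 := abs_sub_round x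

theorem nd_le_int (x : ℝ) (m : ℤ) : nd x ≤ |x - m| := round_le x m

theorem nd_le_abs (x : ℝ) : nd x ≤ |x| := by
  have h := nd_le_int x 0
  simpa using h

theorem exists_nd (x : ℝ) : ∃ m : ℤ, nd x = |x - m| := ⟨round x, rfl⟩

theorem nd_add_int (x : ℝ) (m : ℤ) : nd (x + m) = nd x := by
  apply le_antisymm
  · obtain ⟨k, hk⟩ := exists_nd x
    have h := nd_le_int (x + m) (k + m)
    have e : x + m - ((k + m : ℤ) : ℝ) = x - k := by push_cast; ring
    rw [e] at h
    rw [hk]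
    exact h
  · obtain ⟨k, hk⟩ := exists_nd (x + m)
    have h := nd_le_int x (k - m)
    have e : x - ((k - m : ℤ) : ℝ) = x + m - k := by push_cast; ring
    rw [e] at h
    rw [hk]
    exact h

theorem nd_sub_int (x : ℝ) (m : ℤ) : nd (x - m) = nd x := by
  have h := nd_add_int x (-m)
  have e : x + ((-m : ℤ) : ℝ) = x - m := by push_cast; ring
  rwa [e] at h

theorem nd_neg (x : ℝ) : nd (-x) = nd x := by
  apply le_antisymm
  · obtain ⟨k, hk⟩ := exists_nd x
    have h := nd_le_int (-x) (-k)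
    have e : -x - ((-k : ℤ) : ℝ) = -(x - k) := by push_cast; ring
    rw [e, abs_neg] at h
    rw [hk]
    exact h
  · obtain ⟨k, hk⟩ := exists_nd (-x)
    have h := nd_le_int x (-k)
    have e : x - ((-k : ℤ) : ℝ) = -(-x - k) := by push_cast; ring
    rw [e, abs_neg] at h
    rw [hk]
    exact h

theorem nd_add_le (x y : ℝ) : nd (x + y) ≤ nd x + nd y := by
  obtain ⟨k, hk⟩ := exists_nd x
  obtain ⟨l, hl⟩ := exists_nd y
  have h := nd_le_int (x + y) (k + l)
  have e : x + y - ((k + l : ℤ) : ℝ) = (x - k) + (y - l) := by push_cast; ring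
  rw [e] at h
  rw [hk, hl]
  exact h.trans (abs_add_le _ _)

theorem nd_sub_le (x y : ℝ) : nd (x - y) ≤ nd x + nd y := by
  have h := nd_add_le x (-y)
  rw [nd_neg] at h
  exact h

/-- Perturbation by a real number. -/
theorem nd_le_add_abs (x y : ℝ) : nd (x + y) ≤ nd x + |y| := (nd_add_le x y).trans (by linarith [nd_le_abs y])

theorem nd_nat_mul_le (n : ℕ) (x : ℝ) : nd (n * x) ≤ n * nd x := by
  obtain ⟨k, hk⟩ := exists_nd x
  have h := nd_le_int (n * x) (n * k)
  have e : (n : ℝ) * x - ((n * k : ℤ) : ℝ) = n * (x - k) := by push_cast; ring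
  rw [e, abs_mul, Nat.abs_cast] at h
  rw [hk]
  exact h

/-- A real number of absolute value at most `1/2` is its own distance. -/
theorem nd_eq_abs {x : ℝ} (h : |x| ≤ 1 / 2) : nd x = |x| := by
  apply le_antisymm (nd_le_abs x)
  obtain ⟨k, hk⟩ := exists_nd x
  rw [hk]
  by_cases h0 : k = 0
  · rw [h0]
    simp
  · have h1 : (1 : ℝ) ≤ |(k : ℝ)| := by
      have : (1 : ℤ) ≤ |k| := Int.one_le_abs h0
      exact_mod_cast this
    have h2 : |(k : ℝ)| ≤ |x - k| + |x| := by
      have e : (k : ℝ) = -(x - k) + x := by ring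
      calc |(k : ℝ)| = |-(x - k) + x| := by rw [← e]
        _ ≤ |-(x - k)| + |x| := abs_add_le _ _
        _ = |x - k| + |x| := by rw [abs_neg]
    linarith

/-- `nd x ≤ e`, `|x| ≤ 1 - e'` with `e ≤ e' `: then `|x| ≤ e`. -/
theorem abs_le_of_nd {x e : ℝ} (h : nd x ≤ e) (hx : |x| ≤ 1 / 2) : |x| ≤ e := by rwa [nd_eq_abs hx] at h

theorem ec_swap {ι ι' : Type} (R : ι → ι' → Prop) (A : Finset ι) (B : Finset ι') :
    ec (fun y x => R x y) B A = ec R A B := by
  classical
  unfold ec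
  refine Finset.card_bij (fun p _ => (p.2, p.1)) ?_ ?_ ?_
  · intro p hp
    rw [Finset.mem_filter, Finset.mem_product] at hp ⊢
    exact ⟨⟨hp.1.2, hp.1.1⟩, hp.2⟩
  · intro p _ q _ h
    exact Prod.ext (congrArg Prod.snd h) (congrArg Prod.fst h)
  · intro q hq
    rw [Finset.mem_filter, Finset.mem_product] at hq
    exact ⟨(q.2, q.1), by rw [Finset.mem_filter, Finset.mem_product]; exact ⟨⟨hq.1.2, hq.1.1⟩, hq.2⟩, rfl⟩

theorem ec_le {ι ι' : Type} (R : ι → ι' → Prop) (A : Finset ι) (B : Finset ι') : ec R A B ≤ A.card * B.card := by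
  classical
  unfold ec
  exact (Finset.card_filter_le _ _).trans (Finset.card_product A B).le

open Classical in
/-- The number of related pairs, counted along the first variable. -/
theorem ec_eq_sum {ι ι' : Type} (R : ι → ι' → Prop) (A : Finset ι) (B : Finset ι') :
    ec R A B = ∑ x ∈ A, (B.filter fun y => R x y).card := by
  unfold ec
  rw [Finset.card_filter, Finset.sum_product]
  refine Finset.sum_congr rfl fun x _ => ?_
  rw [Finset.card_filter]

/-- The two functions are close to linear functions of `κ` on `A` and on `B`, with nearly the same slope, and many pairs of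
`A × B` are related. -/
structure St {ι ι' : Type} (X : Finset ι) (X' : Finset ι') (κ : ι → ℕ) (κ' : ι' → ℕ) (R : ι → ι' → Prop) (u : ι → ℝ)
    (v : ι' → ℝ) (δ Z : ℝ) (A : Finset ι) (B : Finset ι') (φ r φ' r' : ℝ) : Prop where
  hA : A ⊆ X
  hB : B ⊆ X'
  hc : δ * ((X.card : ℝ) * X'.card) ≤ ec R A B
  hu : ∀ x ∈ A, |u x - κ x * φ - r| ≤ Z
  hv : ∀ y ∈ B, |v y - κ' y * φ' - r'| ≤ Z
  hφ : |φ - φ'| ≤ 2 * Z

theorem St.mono {ι ι' : Type} {X : Finset ι} {X' : Finset ι'} {κ : ι → ℕ} {κ' : ι' → ℕ} {R : ι → ι' → Prop} {u : ι → ℝ}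
    {v : ι' → ℝ} {δ Z : ℝ} {A : Finset ι} {B : Finset ι'} {φ r φ' r' : ℝ} (h : St X X' κ κ' R u v δ Z A B φ r φ' r')
    {δ₁ Z₁ : ℝ} (hd : δ₁ ≤ δ) (hZ : Z ≤ Z₁) : St X X' κ κ' R u v δ₁ Z₁ A B φ r φ' r' :=
  ⟨h.hA, h.hB, (mul_le_mul_of_nonneg_right hd (by positivity)).trans h.hc, fun x hx => (h.hu x hx).trans hZ,
    fun y hy => (h.hv y hy).trans hZ, h.hφ.trans (by linarith)⟩

theorem Idx.mono {ι : Type} {X : Finset ι} {κ : ι → ℕ} {K : ℕ} {δ δ' : ℝ} (h : Idx X κ K δ) (hd : δ' ≤ δ) :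
    Idx X κ K δ' :=
  ⟨h.lo, h.hi, fun k => (mul_le_mul_of_nonneg_right hd (by positivity)).trans (h.fib k)⟩

end Pool.Agent.Lib.H84V
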