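import Pool.Agent.Lib.H84V.Defs
import Pool.Agent.Lib.H44W.W0

/-!
# H84V, chunk AA: averages over blocks
-/

open Finset

namespace Pool.Agent.Lib.H84V

/-- PROOF. `M S = ∑_{m < M} ∑_{0 ≤ i < L} a i`. For fixed `m`: `∑_{0 ≤ i1 < L - q M} a (i1 + q m)` is the sum of `a i` over `i ∈ [q m, L - q M + q m) ⊆ [0, L)`, the complement in `[0, L)` has `q M` elements. So `‖M S - ∑_{i1} ∑_m a (i1 + q m)‖ ≤ M q M`. Triangle inequality. -/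
theorem blocks (L q M : ℕ) (hL : q * M ≤ L) (a : ℤ → ℂ) (ha : ∀ i, ‖a i‖ ≤ 1) :
    (M : ℝ) * ‖∑ i ∈ Ico (0 : ℤ) L, a i‖ ≤
      ∑ i ∈ Ico (0 : ℤ) (L - q * M), ‖∑ m ∈ Ico (0 : ℤ) M, a (i + q * m)‖ + q * M ^ 2 := by
  sorry

end Pool.Agent.Lib.H84V
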