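import Pool.Agent.Lib.H84V.Defs
import Pool.Agent.Lib.H44W.W0

/-!
# H84V, chunk AB: change of the frequency
-/

open Finset

namespace Pool.Agent.Lib.H84V

open Pool.Agent.H44W (ee)

/-- PROOF. `q θ = q k φ + n + ω`, `n` an integer, `|ω| = nd (q (θ - k φ)) ≤ e`. `ee ((i + q m) θ) = ee (i θ) ee (m (q k φ)) ee (m ω)` (`ee (m n) = 1`), and `ee ((Y + k i + k q m) φ) = ee ((Y + k i) φ) ee (m (q k φ))`. So the left sum is `ee (i θ) ∑_m b_m ee (m ω)` and the right one `ee ((Y + k i) φ) ∑_m b_m`, with the same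
`b_m = g (..) ee (m q k φ)`, `‖b_m‖ ≤ 1`; `‖ee (m ω) - 1‖ ≤ 2 π |m ω| ≤ 7 M e` (`Complex.norm_exp_I_mul_ofReal_sub_one_le` or the bound `|sin| ≤ | |`). -/
theorem freq (g : ℤ → ℂ) (hg : ∀ z, ‖g z‖ ≤ 1) (q M k : ℕ) (Y i : ℤ) (θ φ e : ℝ) (h : nd (q * (θ - k * φ)) ≤ e) :
    ‖∑ m ∈ Ico (0 : ℤ) M, g (Y + k * (i + q * m)) * ee ((i + q * m : ℤ) * θ)‖ ≤
      ‖∑ m ∈ Ico (0 : ℤ) M, g ((Y + k * i) + k * q * m) * ee (((Y + k * i) + k * q * m : ℤ) * φ)‖ + 7 * M ^ 2 * e := by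
  sorry

end Pool.Agent.Lib.H84V
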