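import Pool.Agent.Lib.H84V.Defs
import Pool.Agent.Lib.H18V.Defs

/-!
# H84V, chunk AC: the sum over vertices and blocks
-/

open Finset

namespace Pool.Agent.Lib.H84V

open Pool.Agent.Lib.H18V (Vert)

/-- PROOF. Exchange the sums (over `i` first). For fixed `i ∈ [0, L)` the map `x ↦ (x.1, x.2 + x.1 i)` is injective and sends `V` into `Ico K (2K) ×ˢ Ico (-N) (3N)` (`0 ≤ x.1 i ≤ (2K - 1)(L - 1) ≤ 2 N`), `w ≥ 0`: `Finset.sum_image`, `Finset.sum_le_sum_of_subset_of_nonneg`. -/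
theorem vsum (K N L : ℕ) (hKL : K * L ≤ N) (w : ℕ → ℤ → ℝ) (hw : ∀ k Y, 0 ≤ w k Y) (V : Finset (ℕ × ℤ))
    (hV : V ⊆ Vert K N) :
    ∑ x ∈ V, ∑ i ∈ Ico (0 : ℤ) L, w x.1 (x.2 + x.1 * i) ≤
      L * ∑ x ∈ Ico K (2 * K) ×ˢ Ico (-(N : ℤ)) (3 * N), w x.1 x.2 := by
  sorry

end Pool.Agent.Lib.H84V
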