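import Pool.Agent.Lib.H84V.AA
import Pool.Agent.Lib.H84V.AB
import Pool.Agent.Lib.H84V.AC

/-!
# H84V, chunk AD: AVG, from the correlations to means along progressions
-/

open Finset

namespace Pool.Agent.Lib.H84V

open Pool.Agent.H44W (ee)
open Pool.Agent.Lib.H18V (nn Vert Dense Cr)

/-- PROOF. `C = 12`, `M = ⌊L / (100 D ^ 3)⌋₊`, so `L / (200 D ^ 3) ≤ M ≤ L / (100 D ^ 3)` (`200 D ^ 3 ≤ D ^ 12 ≤ L`), `M q ≤ L / (100 D ^ 2)`. Let `x = (k, Y) ∈ V`, `a i = g (Y + k i) ee (i Th x)`, `‖∑_{i < L} a i‖ ≥ L / D` (`Cr` with `ψ = 1`). `blocks`: `M L / D ≤ ∑_{i ∈ [0, L - q M)} ‖∑_m a (i + q m)‖ + q M²`; `freq` with `e = D / L`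
(`nn = nd`): each term is at most `w k (Y + k i) + 7 M² D / L`, `w k Y' = ‖∑_m g (Y' + k q m) ee ((Y' + k q m) ph)‖`. The errors: `q M² + L 7 M² D / L ≤ 8 D M² ≤ M L / (2 D)`. So `∑_{i ∈ [0, L)} w k (Y + k i) ≥ M L / (2 D)`; sum over `x ∈ V` (`Dense.card`) and `vsum`:
`L ∑ w ≥ (K N / D) M L / (2 D)`, and `2 D ^ 2 ≤ D ^ 12`. -/
theorem AVG : ∃ C : ℕ, ∀ D : ℝ, ∀ N K L : ℕ, ∀ g : ℤ → ℂ, ∀ V : Finset (ℕ × ℤ),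
    ∀ Th : ℕ × ℤ → ℝ, Dense D N K L g (fun _ => 1) V Th → D ^ C ≤ L → ∀ ph : ℝ, ∀ q : ℕ, 1 ≤ q →
    (q : ℝ) ≤ D → (∀ x ∈ V, nn (q * (Th x - x.1 * ph)) ≤ D / L) →
    ∃ M1 : ℕ, 1 ≤ M1 ∧ (L : ℝ) / D ^ C ≤ M1 ∧ M1 * q ≤ L ∧
      (K : ℝ) * N * M1 / D ^ C ≤ ∑ x ∈ Ico K (2 * K) ×ˢ Ico (-(N : ℤ)) (3 * N),
        ‖∑ m ∈ Ico (0 : ℤ) M1, g (x.2 + x.1 * q * m) * ee ((x.2 + x.1 * q * m) * ph)‖ := by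
  sorry

end Pool.Agent.Lib.H84V
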