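import Pool.Agent.Lib.H84V.Defs

/-!
# H84V, chunk CL1: many close pairs
-/

open Finset

namespace Pool.Agent.Lib.H84V

theorem cl1_fib {ι : Type} {X : Finset ι} {κ : ι → ℕ} {K : ℕ} {δ : ℝ} (hX : Idx X κ K δ) (h0 : 0 < δ) (S : Finset ι)
    (hS : S ⊆ X) (L : Finset ℕ) (hL : ∀ z ∈ S, κ z ∈ L) : δ * K * (S.card : ℝ) ≤ L.card * X.card := by
  classical
  have h1 : S.card = ∑ k ∈ L, (S.filter fun z => κ z = k).card := Finset.card_eq_sum_card_fiberwise hL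
  rw [h1, Nat.cast_sum, Finset.mul_sum]
  have h2 : ∀ k ∈ L, δ * K * ((S.filter fun z => κ z = k).card : ℝ) ≤ X.card := by
    intro k _
    have h3 : ((S.filter fun z => κ z = k).card : ℝ) ≤ ((X.filter fun z => κ z = k).card : ℝ) := by
      exact_mod_cast Finset.card_le_card (Finset.filter_subset_filter _ hS)
    have h4 := hX.fib k
    have h5 : δ * K * ((S.filter fun z => κ z = k).card : ℝ) ≤ δ * K * ((X.filter fun z => κ z = k).card : ℝ) :=
      mul_le_mul_of_nonneg_left h3 (by positivity)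
    linarith
  refine (Finset.sum_le_sum h2).trans ?_
  rw [Finset.sum_const, nsmul_eq_mul]

theorem cl1_near {ι : Type} {X : Finset ι} {κ : ι → ℕ} {K : ℕ} {δ : ℝ} (hX : Idx X κ K δ) (h0 : 0 < δ) (S : Finset ι)
    (hS : S ⊆ X) (a : ℕ) (T : ℝ) (hT : 0 < T) (hL : ∀ z ∈ S, |(a : ℝ) - κ z| < T) :
    δ * K * (S.card : ℝ) ≤ (2 * T + 1) * X.card := by
  have ht1 : T ≤ (⌈T⌉₊ : ℝ) := Nat.le_ceil T
  have ht2 : (⌈T⌉₊ : ℝ) < T + 1 := Nat.ceil_lt_add_one hT.le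
  have ht0 : 0 < ⌈T⌉₊ := Nat.ceil_pos.2 hT
  set t := ⌈T⌉₊ with ht
  have h1 := cl1_fib hX h0 S hS (Finset.Icc (a + 1 - t) (a + t - 1)) (by
    intro z hz
    have h2 := abs_lt.1 ((hL z hz).trans_le ht1)
    have h3 : (κ z : ℝ) < ((a + t : ℕ) : ℝ) := by push_cast; linarith
    have h4 : (a : ℝ) < ((κ z + t : ℕ) : ℝ) := by push_cast; linarith
    rw [Nat.cast_lt] at h3 h4
    rw [Finset.mem_Icc]
    omega)
  refine h1.trans (mul_le_mul_of_nonneg_right ?_ (by positivity))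
  rw [Nat.card_Icc]
  have h5 : a + t - 1 + 1 - (a + 1 - t) ≤ 2 * t - 1 := by omega
  have h6 : ((a + t - 1 + 1 - (a + 1 - t) : ℕ) : ℝ) ≤ ((2 * t - 1 : ℕ) : ℝ) := by exact_mod_cast h5
  refine h6.trans ?_
  rw [Nat.cast_sub (by omega)]
  push_cast
  linarith

open Classical in
/-- PROOF. `N = |B| ≥ (δ / 2) |X|`. The map `y ↦ ⌊(κ y - K) / H⌋₊` takes at most `K / H + 1 ≤ 2 K / H` values on `B`, so (Cauchy-Schwarz: `sq_sum_le_card_mul_sum_sq`) at least `N ^ 2 H / (2 K)` pairs of `B × B` have the same value; these have `|κ y - κ z| < H`. For each `y` the number of `z ∈ X` with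
`|κ z - κ y| < δ ^ 8 H` is at most `(2 δ ^ 8 H + 1) |X| / (δ K) ≤ 3 δ ^ 7 (H / K) |X|` (at most `2 δ ^ 8 H + 1` values of `κ z`, `Idx.fib`, `1 ≤ δ ^ 8 H`), so at most `3 δ ^ 7 (H / K) |X| N ≤ 6 δ ^ 6 (H / K) N ^ 2 ≤ (H / K) N ^ 2 / 4` pairs have `|κ y - κ z| < δ ^ 8 H`.
So at least `N ^ 2 H / (4 K)` pairs have `δ ^ 8 H ≤ |κ y - κ z| < H`; by the symmetry `(y, z) ↦ (z, y)` at least half of them have `κ y > κ z`: at least `N ^ 2 H / (8 K) ≥ (δ ^ 2 / 32) (H / K) |X| ^ 2`. -/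
theorem cl1 {ι : Type} {X : Finset ι} {κ : ι → ℕ} {K : ℕ} {δ H : ℝ} (hX : Idx X κ K δ) (h0 : 0 < δ) (h2 : δ ≤ 1 / 2)
    (hH : 1 ≤ δ ^ 8 * H) (hHK : H ≤ K) (B : Finset ι) (hB : B ⊆ X) (hc : δ / 2 * X.card ≤ B.card) :
    δ ^ 7 * (H / K) * (X.card : ℝ) ^ 2 ≤
      (((B ×ˢ B).filter fun p => δ ^ 8 * H ≤ (κ p.1 : ℝ) - κ p.2 ∧ (κ p.1 : ℝ) - κ p.2 ≤ H).card : ℝ) := by
  have hH0 : 0 < H := by
    by_contra h
    push Not at h
    have := mul_nonpos_of_nonneg_of_nonpos (pow_pos h0 8).le h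
    linarith
  have hK0 : (0:ℝ) < K := hH0.trans_le hHK
  set c : ι → ℕ := fun y => ⌊((κ y : ℝ) - K) / H⌋₊ with hcdef
  set C := range (⌊(K:ℝ) / H⌋₊ + 1) with hC
  have hcC : ∀ y ∈ B, c y ∈ C := by
    intro y hy
    rw [hC, Finset.mem_range, Nat.lt_succ_iff]
    refine Nat.floor_le_floor ?_
    have h1 := hX.hi y (hB hy)
    have h3 : (κ y : ℝ) < 2 * K := by exact_mod_cast h1
    rw [div_le_div_iff_of_pos_right hH0]
    linarith
  have hHK1 : 1 ≤ (K:ℝ) / H := by rw [le_div_iff₀ hH0]; linarith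
  have hCcard : (C.card : ℝ) ≤ 2 * (K / H) := by
    rw [hC, Finset.card_range]
    push_cast
    have := Nat.floor_le (show (0:ℝ) ≤ (K:ℝ) / H by positivity)
    linarith
  have hfib : ∑ k ∈ C, (((B.filter fun y => c y = k).card : ℝ)) = B.card := by
    exact_mod_cast (Finset.card_eq_sum_card_fiberwise hcC).symm
  have hcs : (B.card : ℝ) ^ 2 ≤ C.card * ∑ k ∈ C, (((B.filter fun y => c y = k).card : ℝ)) ^ 2 := by
    rw [← hfib]
    exact sq_sum_le_card_mul_sum_sq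
  set P0 := (B ×ˢ B).filter fun p => c p.1 = c p.2 with hP0def
  have hP0 : (P0.card : ℝ) = ∑ k ∈ C, (((B.filter fun y => c y = k).card : ℝ)) ^ 2 := by
    have h3 : P0.card = ∑ k ∈ C, (P0.filter fun p => c p.1 = k).card := by
      refine Finset.card_eq_sum_card_fiberwise ?_
      intro p hp
      have h4 := (Finset.mem_filter.1 (by exact hp : p ∈ P0)).1
      exact hcC _ (Finset.mem_product.1 h4).1
    rw [h3, Nat.cast_sum]
    refine Finset.sum_congr rfl fun k _ => ?_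
    have h4 : (P0.filter fun p => c p.1 = k) = (B.filter fun y => c y = k) ×ˢ (B.filter fun y => c y = k) := by
      ext ⟨y, z⟩
      rw [hP0def]
      simp only [Finset.mem_filter, Finset.mem_product]
      constructor
      · rintro ⟨⟨⟨h5, h6⟩, h7⟩, h8⟩
        exact ⟨⟨h5, h8⟩, h6, h7.symm.trans h8⟩
      · rintro ⟨⟨h5, h8⟩, h6, h7⟩
        exact ⟨⟨⟨h5, h6⟩, h8.trans h7.symm⟩, h8⟩
    rw [h4, Finset.card_product, Nat.cast_mul, sq]
  have hclose : ∀ p ∈ P0, |(κ p.1 : ℝ) - κ p.2| < H := by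
    intro p hp
    obtain ⟨hp1, hp2⟩ := Finset.mem_filter.1 hp
    obtain ⟨hy, hz⟩ := Finset.mem_product.1 hp1
    have e1 := hX.lo _ (hB hy)
    have e2 := hX.lo _ (hB hz)
    have e1' : (0:ℝ) ≤ ((κ p.1 : ℝ) - K) / H := div_nonneg (by have : (K:ℝ) ≤ κ p.1 := by exact_mod_cast e1
                                                               linarith) hH0.le
    have e2' : (0:ℝ) ≤ ((κ p.2 : ℝ) - K) / H := div_nonneg (by have : (K:ℝ) ≤ κ p.2 := by exact_mod_cast e2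
                                                               linarith) hH0.le
    have f1 := Nat.floor_le e1'
    have f2 := Nat.floor_le e2'
    have g1 := Nat.lt_floor_add_one (((κ p.1 : ℝ) - K) / H)
    have g2 := Nat.lt_floor_add_one (((κ p.2 : ℝ) - K) / H)
    have hp2' : ⌊((κ p.1 : ℝ) - K) / H⌋₊ = ⌊((κ p.2 : ℝ) - K) / H⌋₊ := hp2
    rw [hp2'] at f1 g1
    have h5 : |((κ p.1 : ℝ) - κ p.2) / H| < 1 := by
      rw [abs_lt]
      have h6 : ((κ p.1 : ℝ) - κ p.2) / H = ((κ p.1 : ℝ) - K) / H - ((κ p.2 : ℝ) - K) / H := by ring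
      rw [h6]
      constructor <;> linarith
    rw [abs_div, abs_of_pos hH0, div_lt_one hH0] at h5
    exact h5
  set T := (B ×ˢ B).filter fun p => δ ^ 8 * H ≤ (κ p.1 : ℝ) - κ p.2 ∧ (κ p.1 : ℝ) - κ p.2 ≤ H with hT
  set P2 := (B ×ˢ B).filter fun p => |(κ p.1 : ℝ) - κ p.2| < δ ^ 8 * H with hP2def
  have hP2 : δ * K * (P2.card : ℝ) ≤ B.card * ((2 * (δ ^ 8 * H) + 1) * X.card) := by
    have h3 : P2.card = ∑ y ∈ B, (B.filter fun z => |(κ y : ℝ) - κ z| < δ ^ 8 * H).card := by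
      rw [hP2def, Finset.card_filter, Finset.sum_product]
      refine Finset.sum_congr rfl fun x _ => ?_
      rw [Finset.card_filter]
    rw [h3, Nat.cast_sum, Finset.mul_sum]
    have h4 : ∀ y ∈ B, δ * K * ((B.filter fun z => |(κ y : ℝ) - κ z| < δ ^ 8 * H).card : ℝ) ≤
        (2 * (δ ^ 8 * H) + 1) * X.card := fun y _ =>
      cl1_near hX h0 _ ((Finset.filter_subset _ _).trans hB) (κ y) _ (by positivity) fun z hz => (Finset.mem_filter.1 hz).2
    refine (Finset.sum_le_sum h4).trans ?_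
    rw [Finset.sum_const, nsmul_eq_mul]
  -- P0 is covered
  have hcov : P0 ⊆ P2 ∪ (T ∪ T.image Prod.swap) := by
    intro p hp
    have h3 := hclose p hp
    obtain ⟨hp1, hp2⟩ := Finset.mem_filter.1 hp
    by_cases h4 : |(κ p.1 : ℝ) - κ p.2| < δ ^ 8 * H
    · exact Finset.mem_union_left _ (Finset.mem_filter.2 ⟨hp1, h4⟩)
    · push Not at h4
      refine Finset.mem_union_right _ ?_
      have h5 := abs_lt.1 h3
      rcases le_total 0 ((κ p.1 : ℝ) - κ p.2) with h6 | h6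
      · rw [abs_of_nonneg h6] at h4
        exact Finset.mem_union_left _ (Finset.mem_filter.2 ⟨hp1, h4, h5.2.le⟩)
      · rw [abs_of_nonpos h6] at h4
        refine Finset.mem_union_right _ (Finset.mem_image.2 ⟨p.swap, Finset.mem_filter.2 ⟨?_, ?_, ?_⟩, Prod.swap_swap p⟩)
        · exact Finset.mem_product.2 ⟨(Finset.mem_product.1 hp1).2, (Finset.mem_product.1 hp1).1⟩
        · change δ ^ 8 * H ≤ (κ p.2 : ℝ) - κ p.1
          linarith
        · change (κ p.2 : ℝ) - κ p.1 ≤ H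
          linarith [h5.1]
  have hcard : (P0.card : ℝ) ≤ P2.card + 2 * T.card := by
    have h3 := (Finset.card_le_card hcov).trans ((Finset.card_union_le _ _).trans
      (Nat.add_le_add_left (Finset.card_union_le _ _) _))
    have h4 : (T.image Prod.swap).card ≤ T.card := Finset.card_image_le
    have h5 : P0.card ≤ P2.card + 2 * T.card := by omega
    exact_mod_cast h5
  -- numerical part
  have hN0 : (0:ℝ) ≤ B.card := by positivity
  have hX0 : (0:ℝ) ≤ X.card := by positivity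
  have hS0 : (0:ℝ) ≤ P0.card := by positivity
  rw [← hP0] at hcs
  -- N^2 H / (2K) ≤ P0.card
  have a1 : (B.card : ℝ) ^ 2 * H ≤ 2 * K * P0.card := by
    have h3 := hcs.trans (mul_le_mul_of_nonneg_right hCcard hS0)
    have h4 := mul_le_mul_of_nonneg_right h3 hH0.le
    have h5 : 2 * ((K:ℝ) / H) * P0.card * H = 2 * K * P0.card := by field_simp
    rwa [h5] at h4
  have a2 : K * (P2.card : ℝ) ≤ 3 * δ ^ 7 * H * (X.card * B.card) := by
    have h3 : 2 * (δ ^ 8 * H) + 1 ≤ 3 * (δ ^ 8 * H) := by linarith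
    have h4 := hP2.trans (mul_le_mul_of_nonneg_left (mul_le_mul_of_nonneg_right h3 hX0) hN0)
    have h5 : (B.card : ℝ) * (3 * (δ ^ 8 * H) * X.card) = δ * (3 * δ ^ 7 * H * (X.card * B.card)) := by ring
    rw [h5, mul_assoc] at h4
    exact le_of_mul_le_mul_left h4 h0
  have a3 : 3 * δ ^ 7 * H * ((X.card : ℝ) * B.card) ≤ H * (B.card : ℝ) ^ 2 / 4 := by
    have h3 : δ * (X.card : ℝ) ≤ 2 * B.card := by linarith
    have h4 : 3 * δ ^ 7 * H * ((X.card : ℝ) * B.card) = 3 * δ ^ 6 * H * B.card * (δ * X.card) := by ring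
    rw [h4]
    have h5 : 3 * δ ^ 6 * H * B.card * (δ * X.card) ≤ 3 * δ ^ 6 * H * B.card * (2 * B.card) :=
      mul_le_mul_of_nonneg_left h3 (by positivity)
    refine h5.trans ?_
    have h6 : δ ^ 6 ≤ (1 / 2) ^ 6 := pow_le_pow_left₀ h0.le h2 6
    have h7 : 3 * δ ^ 6 * H * B.card * (2 * B.card) = 6 * δ ^ 6 * (H * (B.card : ℝ) ^ 2) := by ring
    rw [h7]
    have h8 : 0 ≤ H * (B.card : ℝ) ^ 2 := by positivity
    nlinarith
  have a4 : (B.card : ℝ) ^ 2 * H / 8 ≤ K * T.card := by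
    have h3 := mul_le_mul_of_nonneg_left hcard hK0.le
    nlinarith
  have a5 : δ ^ 7 * H * (X.card : ℝ) ^ 2 ≤ (B.card : ℝ) ^ 2 * H / 8 := by
    have h3 : (δ / 2 * (X.card : ℝ)) ^ 2 ≤ (B.card : ℝ) ^ 2 := pow_le_pow_left₀ (by positivity) hc 2
    have h4 : δ ^ 5 ≤ (1 / 2) ^ 5 := pow_le_pow_left₀ h0.le h2 5
    have h5 : δ ^ 7 * H * (X.card : ℝ) ^ 2 = δ ^ 5 * (H * (δ ^ 2 * (X.card : ℝ) ^ 2)) := by ring
    rw [h5]
    have h6 : δ ^ 5 * (H * (δ ^ 2 * (X.card : ℝ) ^ 2)) ≤ (1 / 2) ^ 5 * (H * (δ ^ 2 * (X.card : ℝ) ^ 2)) :=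
      mul_le_mul_of_nonneg_right h4 (by positivity)
    refine h6.trans ?_
    nlinarith
  have a6 : δ ^ 7 * H * (X.card : ℝ) ^ 2 ≤ K * T.card := a5.trans a4
  have a7 : δ ^ 7 * (H / K) * (X.card : ℝ) ^ 2 = δ ^ 7 * H * (X.card : ℝ) ^ 2 / K := by ring
  rw [a7, div_le_iff₀ hK0, mul_comm (T.card : ℝ)]
  exact a6

end Pool.Agent.Lib.H84V
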