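import Pool.Agent.Lib.H84V.CL1

/-!
# H84V, chunk CL2: a close pair with many related pairs
-/

open Finset

namespace Pool.Agent.Lib.H84V

open Classical in
/-- PROOF. Let `Pr` be the set of `(y, z) ∈ B × B` with `δ ^ 8 H ≤ κ' y - κ' z ≤ H` and `N_x = B.filter (R x)`. `|Pr| ≤ |X'| (H + 1) |X'| / (δ K) ≤ 2 (H / (δ K)) |X'| ^ 2` (for each `y` at most `H + 1 ≤ 2 H` values of `κ' z`, `Idx.fib`). Exchange of sums:
`∑_{(y,z) ∈ Pr} ec R (A.filter (R · y ∧ R · z)) B = ∑_{x ∈ A} |N_x| #(Pr ∩ N_x × N_x)` (`ec_eq_sum`). For `x` with `|N_x| ≥ (δ/2) |X'|` the last factor is at least `δ ^ 7 (H / K) |X'| ^ 2` (`cl1` for `N_x`), and `∑ |N_x|` over these `x` is at least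
`ec R A B - (δ / 2) |X| |X'| ≥ (δ / 2) |X| |X'|`. So the sum is at least `(δ ^ 8 / 2) (H / K) |X| |X'| ^ 3`; if all terms were `< δ ^ 13 |X| |X'|` it would be `≤ 2 δ ^ 12 (H / K) |X| |X'| ^ 3`, a contradiction (`δ ^ 4 ≤ 1/16`). -/
theorem cl2 {ι ι' : Type} {X : Finset ι} {X' : Finset ι'} {κ' : ι' → ℕ} {K : ℕ} {δ H : ℝ} (hX' : Idx X' κ' K δ)
    (h0 : 0 < δ) (h2 : δ ≤ 1 / 2) (hne : X.Nonempty) (hne' : X'.Nonempty) (hH : 1 ≤ δ ^ 8 * H) (hHK : H ≤ K)
    (R : ι → ι' → Prop) (A : Finset ι) (hA : A ⊆ X) (B : Finset ι') (hB : B ⊆ X')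
    (hc : δ * ((X.card : ℝ) * X'.card) ≤ ec R A B) :
    ∃ y ∈ B, ∃ z ∈ B, δ ^ 8 * H ≤ (κ' y : ℝ) - κ' z ∧ (κ' y : ℝ) - κ' z ≤ H ∧
      δ ^ 13 * ((X.card : ℝ) * X'.card) ≤ ec R (A.filter fun x => R x y ∧ R x z) B := by
  by_contra hcon
  push Not at hcon
  have hd81 : δ ^ 8 ≤ 1 := pow_le_one₀ h0.le (by linarith)
  have hH0 : 0 < H := by
    by_contra h
    push Not at h
    have := mul_nonpos_of_nonneg_of_nonpos (pow_pos h0 8).le h
    linarith
  have hH1 : 1 ≤ H := by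
    by_contra h
    push Not at h
    have : δ ^ 8 * H < 1 := by nlinarith [pow_pos h0 8]
    linarith
  have hK0 : (0:ℝ) < K := hH0.trans_le hHK
  have hXc : (0:ℝ) < X.card := by exact_mod_cast hne.card_pos
  have hXc' : (0:ℝ) < X'.card := by exact_mod_cast hne'.card_pos
  set Pr := (B ×ˢ B).filter fun p => δ ^ 8 * H ≤ (κ' p.1 : ℝ) - κ' p.2 ∧ (κ' p.1 : ℝ) - κ' p.2 ≤ H with hPr
  -- size of Pr
  have hPrc : δ * K * (Pr.card : ℝ) ≤ 2 * H * (X'.card : ℝ) ^ 2 := by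
    have h3 : Pr.card = ∑ y ∈ B, (B.filter fun z => δ ^ 8 * H ≤ (κ' y : ℝ) - κ' z ∧ (κ' y : ℝ) - κ' z ≤ H).card := by
      rw [hPr, Finset.card_filter, Finset.sum_product]
      refine Finset.sum_congr rfl fun x _ => ?_
      rw [Finset.card_filter]
    rw [h3, Nat.cast_sum, Finset.mul_sum]
    have h4 : ∀ y ∈ B, δ * K * ((B.filter fun z => δ ^ 8 * H ≤ (κ' y : ℝ) - κ' z ∧ (κ' y : ℝ) - κ' z ≤ H).card : ℝ) ≤
        2 * H * X'.card := by
      intro y _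
      have h5 := cl1_fib hX' h0 (B.filter fun z => δ ^ 8 * H ≤ (κ' y : ℝ) - κ' z ∧ (κ' y : ℝ) - κ' z ≤ H)
        ((Finset.filter_subset _ _).trans hB) (Finset.Ico (κ' y - ⌊H⌋₊) (κ' y)) (by
          intro z hz
          obtain ⟨-, h6, h7⟩ := Finset.mem_filter.1 hz
          rw [Finset.mem_Ico]
          have h8 : (κ' z : ℝ) < κ' y := by linarith
          rw [Nat.cast_lt] at h8
          have h9 : ((κ' y - κ' z : ℕ) : ℝ) ≤ H := by rw [Nat.cast_sub h8.le]; exact h7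
          have h10 := Nat.le_floor h9
          omega)
      refine h5.trans (mul_le_mul_of_nonneg_right ?_ (by positivity))
      rw [Nat.card_Ico]
      have h6 : κ' y - (κ' y - ⌊H⌋₊) ≤ ⌊H⌋₊ := by omega
      have h7 : ((κ' y - (κ' y - ⌊H⌋₊) : ℕ) : ℝ) ≤ (⌊H⌋₊ : ℝ) := by exact_mod_cast h6
      have h8 := Nat.floor_le hH0.le
      linarith
    refine (Finset.sum_le_sum h4).trans ?_
    rw [Finset.sum_const, nsmul_eq_mul]
    have h5 : (B.card : ℝ) ≤ X'.card := by exact_mod_cast Finset.card_le_card hB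
    calc (B.card : ℝ) * (2 * H * X'.card) ≤ X'.card * (2 * H * X'.card) := mul_le_mul_of_nonneg_right h5 (by positivity)
      _ = 2 * H * (X'.card : ℝ) ^ 2 := by ring
  -- exchange of sums
  have hex : ∑ p ∈ Pr, (ec R (A.filter fun x => R x p.1 ∧ R x p.2) B : ℝ) =
      ∑ x ∈ A, ((B.filter fun y => R x y).card : ℝ) *
        ((((B.filter fun y => R x y) ×ˢ (B.filter fun y => R x y)).filter
          fun p => δ ^ 8 * H ≤ (κ' p.1 : ℝ) - κ' p.2 ∧ (κ' p.1 : ℝ) - κ' p.2 ≤ H).card : ℝ) := by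
    have h3 : ∀ p ∈ Pr, (ec R (A.filter fun x => R x p.1 ∧ R x p.2) B : ℝ) =
        ∑ x ∈ A, (if R x p.1 ∧ R x p.2 then ((B.filter fun y => R x y).card : ℝ) else 0) := by
      intro p _
      rw [ec_eq_sum, Nat.cast_sum, Finset.sum_filter]
    rw [Finset.sum_congr rfl h3, Finset.sum_comm]
    refine Finset.sum_congr rfl fun x _ => ?_
    rw [← Finset.sum_filter, Finset.sum_const, nsmul_eq_mul, mul_comm]
    congr 3
    ext p
    rw [hPr]
    simp only [Finset.mem_filter, Finset.mem_product]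
    tauto
  -- upper bound
  have hup : ∑ p ∈ Pr, (ec R (A.filter fun x => R x p.1 ∧ R x p.2) B : ℝ) ≤ Pr.card * (δ ^ 13 * ((X.card : ℝ) * X'.card)) := by
    have h3 : ∀ p ∈ Pr, (ec R (A.filter fun x => R x p.1 ∧ R x p.2) B : ℝ) ≤ δ ^ 13 * ((X.card : ℝ) * X'.card) := by
      intro p hp
      obtain ⟨hp1, hp2, hp3⟩ := Finset.mem_filter.1 hp
      obtain ⟨hy, hz⟩ := Finset.mem_product.1 hp1
      exact (hcon p.1 hy p.2 hz hp2 hp3).le
    refine (Finset.sum_le_sum h3).trans ?_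
    rw [Finset.sum_const, nsmul_eq_mul]
  -- lower bound
  have hlow : ∀ x ∈ A, δ ^ 7 * (H / K) * (X'.card : ℝ) ^ 2 * (((B.filter fun y => R x y).card : ℝ) - δ / 2 * X'.card) ≤
      ((B.filter fun y => R x y).card : ℝ) *
        ((((B.filter fun y => R x y) ×ˢ (B.filter fun y => R x y)).filter
          fun p => δ ^ 8 * H ≤ (κ' p.1 : ℝ) - κ' p.2 ∧ (κ' p.1 : ℝ) - κ' p.2 ≤ H).card : ℝ) := by
    intro x _
    have hn : (0:ℝ) ≤ ((B.filter fun y => R x y).card : ℝ) := by positivity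
    have hcc : 0 ≤ δ ^ 7 * (H / K) * (X'.card : ℝ) ^ 2 := by positivity
    by_cases hx : δ / 2 * X'.card ≤ ((B.filter fun y => R x y).card : ℝ)
    · have h3 := cl1 hX' h0 h2 hH hHK (B.filter fun y => R x y) ((Finset.filter_subset _ _).trans hB) hx
      have h4 := mul_le_mul_of_nonneg_left h3 hn
      refine le_trans ?_ h4
      have h5 : 0 ≤ δ / 2 * (X'.card : ℝ) := by positivity
      nlinarith
    · push Not at hx
      have h5 : δ ^ 7 * (H / K) * (X'.card : ℝ) ^ 2 * (((B.filter fun y => R x y).card : ℝ) - δ / 2 * X'.card) ≤ 0 :=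
        mul_nonpos_of_nonneg_of_nonpos hcc (by linarith)
      exact h5.trans (by positivity)
  have hlow2 := Finset.sum_le_sum hlow
  rw [← hex, ← Finset.mul_sum, Finset.sum_sub_distrib, Finset.sum_const, nsmul_eq_mul] at hlow2
  have hec : ∑ x ∈ A, ((B.filter fun y => R x y).card : ℝ) = ec R A B := by
    rw [ec_eq_sum, Nat.cast_sum]
  rw [hec] at hlow2
  have hAX : (A.card : ℝ) ≤ X.card := by exact_mod_cast Finset.card_le_card hA
  have h3 : δ / 2 * ((X.card : ℝ) * X'.card) ≤ (ec R A B : ℝ) - A.card * (δ / 2 * X'.card) := by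
    have h4 : (A.card : ℝ) * (δ / 2 * X'.card) ≤ X.card * (δ / 2 * X'.card) := mul_le_mul_of_nonneg_right hAX (by positivity)
    linarith
  have h4 := (mul_le_mul_of_nonneg_left h3 (show 0 ≤ δ ^ 7 * (H / K) * (X'.card : ℝ) ^ 2 by positivity)).trans (hlow2.trans hup)
  -- multiply by δ K
  have h5 := mul_le_mul_of_nonneg_right hPrc (show 0 ≤ δ ^ 13 * ((X.card : ℝ) * X'.card) by positivity)
  have h6 := mul_le_mul_of_nonneg_left h4 (show 0 ≤ δ * K by positivity)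
  have h7 : δ * K * (δ ^ 7 * (H / K) * (X'.card : ℝ) ^ 2 * (δ / 2 * ((X.card : ℝ) * X'.card))) =
      δ ^ 9 * (H * (X'.card : ℝ) ^ 3 * X.card) / 2 := by field_simp
  have h8 : 2 * H * (X'.card : ℝ) ^ 2 * (δ ^ 13 * ((X.card : ℝ) * X'.card)) = 2 * δ ^ 4 * δ ^ 9 * (H * (X'.card : ℝ) ^ 3 * X.card) := by
    ring
  rw [h7] at h6
  rw [h8] at h5
  have h9 : δ ^ 4 ≤ (1 / 2) ^ 4 := pow_le_pow_left₀ h0.le h2 4
  have h10 : 0 < δ ^ 9 * (H * (X'.card : ℝ) ^ 3 * X.card) := by positivity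
  have h11 : δ * K * ((Pr.card : ℝ) * (δ ^ 13 * ((X.card : ℝ) * X'.card))) = δ * K * (Pr.card : ℝ) * (δ ^ 13 * ((X.card : ℝ) * X'.card)) := by ring
  rw [h11] at h6
  have h12 := h6.trans h5
  nlinarith

end Pool.Agent.Lib.H84V
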