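import Pool.Agent.Lib.H84V.VX

/-!
# H84V, chunk EN: the constant is rational
-/

open Finset

namespace Pool.Agent.Lib.H84V

theorem en_rich {ι ι' : Type} {X : Finset ι} {X' : Finset ι'} {δ : ℝ} {R : ι → ι' → Prop} {A : Finset ι} {B : Finset ι'}
    (h0 : 0 < δ) (hA : A ⊆ X) (hB : B ⊆ X') (hne' : X'.Nonempty)
    (hc : δ * ((X.card : ℝ) * X'.card) ≤ ec R A B) :
    ∃ A₁ : Finset ι, A₁ ⊆ A ∧ δ / 2 * X.card ≤ A₁.card ∧
      ∀ x ∈ A₁, ∃ N : Finset ι', N ⊆ B ∧ (∀ y ∈ N, R x y) ∧ δ / 2 * X'.card ≤ N.card := by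
  classical
  have hX1' : (0 : ℝ) < X'.card := by exact_mod_cast hne'.card_pos
  obtain ⟨N, hN⟩ : ∃ N : ι → Finset ι', N = fun x => B.filter fun y => R x y := ⟨_, rfl⟩
  have hsum : (ec R A B : ℝ) = ∑ x ∈ A, ((N x).card : ℝ) := by
    rw [ec_eq_sum, hN]
    push_cast
    refine Finset.sum_congr rfl fun x _ => ?_
    congr 1
  refine ⟨A.filter fun x => δ / 2 * X'.card ≤ (N x).card, Finset.filter_subset _ _, ?_, fun x hx => ?_⟩
  · have h1 : ∑ x ∈ A, ((N x).card : ℝ) ≤ ∑ x ∈ A, ((if δ / 2 * X'.card ≤ (N x).card then (X'.card : ℝ) else 0) + δ / 2 * X'.card) := by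
      refine Finset.sum_le_sum fun x _ => ?_
      by_cases h : δ / 2 * X'.card ≤ (N x).card
      · rw [if_pos h]
        have h2 : ((N x).card : ℝ) ≤ X'.card := by
          have h3 : (N x).card ≤ X'.card := by
            rw [hN]
            exact (Finset.card_filter_le _ _).trans (Finset.card_le_card hB)
          exact_mod_cast h3
        have h4 : 0 ≤ δ / 2 * X'.card := by positivity
        linarith
      · rw [if_neg h]
        linarith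
    rw [Finset.sum_add_distrib, ← Finset.sum_filter, Finset.sum_const, Finset.sum_const, nsmul_eq_mul, nsmul_eq_mul] at h1
    have h2 : (A.card : ℝ) ≤ X.card := by exact_mod_cast Finset.card_le_card hA
    have h3 : (A.card : ℝ) * (δ / 2 * X'.card) ≤ X.card * (δ / 2 * X'.card) :=
      mul_le_mul_of_nonneg_right h2 (by positivity)
    have h4 : δ / 2 * X.card * X'.card ≤ ((A.filter fun x => δ / 2 * X'.card ≤ (N x).card).card : ℝ) * X'.card := by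
      rw [hsum] at hc
      nlinarith
    exact le_of_mul_le_mul_right h4 hX1'
  · have h1 := (Finset.mem_filter.1 hx).2
    refine ⟨N x, ?_, fun y hy => ?_, h1⟩
    · rw [hN]
      exact Finset.filter_subset _ _
    · rw [hN] at hy
      exact (Finset.mem_filter.1 hy).2

/-- PROOF. `D = φ - φ'`. For related `(x, y) ∈ A × B`: `κ' y u x - κ x v y = κ x κ' y D + κ' y r - κ x r' + O(4 K Z)`, so `nd (κ' y (κ x D + r) - κ x r') ≤ e`. Let `x ∈ A` be rich: `N_x = B.filter (R x)` has `≥ (δ/2) |X'| ≥ δ ^ 2 |X'|` elements; the rich `x` are at least `(δ/2) |X| ≥ δ ^ 2 |X|` (`ec_eq_sum`: `δ |X| |X'| ≤ ∑ |N_x|`).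
`vx` on `X'` with `δ ^ 2` (`e ≤ δ ^ 12`, `1 ≤ δ ^ 18 K`): `q_x ≤ δ ^ (-6)`, `nd (q_x (κ x D + r)) ≤ e / (δ ^ 16 K) =: e₂`. Pigeonhole: some `q₁` occurs for at least `δ ^ 8 |X|` of the rich `x` (at most `δ ^ (-6)` values). `vx` on `X` with `δ ^ 8` for `α = q₁ D`, `β = q₁ r` (`e₂ ≤ δ ^ 48`, `1 ≤ δ ^ 72 K`):
`q₂ ≤ δ ^ (-24)`, `nd (q₂ q₁ D) ≤ e₂ / (δ ^ 64 K)`. For one such `x`: `nd (q₂ (κ x q₁ D + q₁ r)) ≤ q₂ e₂` and `nd (κ x q₂ q₁ D) ≤ 2 K e₂ / (δ ^ 64 K)`, so `nd (q r) ≤ 3 e / (δ ^ 80 K) ≤ e / (δ ^ 82 K)` for `q = q₁ q₂ ≤ δ ^ (-30)`; `p = round (q r)`. -/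
theorem endr {ι ι' : Type} {X : Finset ι} {X' : Finset ι'} {κ : ι → ℕ} {κ' : ι' → ℕ} {K : ℕ}
    {δ ε Z e φ r φ' r' : ℝ} {u : ι → ℝ} {v : ι' → ℝ} {R : ι → ι' → Prop} {A : Finset ι} {B : Finset ι'}
    (h0 : 0 < δ) (h2 : δ ≤ 1 / 2) (hX : Idx X κ K δ) (hX' : Idx X' κ' K δ) (hne : X.Nonempty) (hne' : X'.Nonempty)
    (hR : ∀ x ∈ X, ∀ y ∈ X', R x y → nd (κ' y * u x - κ x * v y) ≤ ε)
    (hS : St X X' κ κ' R u v δ Z A B φ r φ' r') (hZ : 0 ≤ Z) (hε : 0 < ε) (he : ε + 4 * K * Z ≤ e) (he1 : e ≤ δ ^ 12)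
    (hK : 1 ≤ δ ^ 72 * K) :
    ∃ (p : ℤ) (q : ℕ), 1 ≤ q ∧ δ ^ 30 * q ≤ 1 ∧ δ ^ 82 * K * |r - p / q| ≤ e := by
  classical
  have hd1 : δ ≤ 1 := h2.trans (by norm_num)
  have hmono : ∀ n m : ℕ, n ≤ m → δ ^ m ≤ δ ^ n := fun n m hnm => pow_le_pow_of_le_one h0.le hd1 hnm
  have hX1 : (0 : ℝ) < X.card := by exact_mod_cast hne.card_pos
  have hX1' : (0 : ℝ) < X'.card := by exact_mod_cast hne'.card_pos
  have hK0 : (0 : ℝ) < K := by
    by_contra hneg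
    have h4 : δ ^ 72 * (K : ℝ) ≤ 0 := mul_nonpos_of_nonneg_of_nonpos (pow_pos h0 72).le (not_lt.1 hneg)
    linarith
  have he0 : 0 < e := by
    have h3 : 0 ≤ 4 * (K : ℝ) * Z := mul_nonneg (by linarith) hZ
    linarith
  obtain ⟨D, hD⟩ : ∃ D : ℝ, D = φ - φ' := ⟨_, rfl⟩
  have hrel : ∀ x ∈ A, ∀ y ∈ B, R x y → nd (κ' y * (κ x * D + r) + -(κ x * r')) ≤ e := by
    intro x hx y hy hxy
    have h3 := hR x (hS.hA hx) y (hS.hB hy) hxy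
    have h4 := hS.hu x hx
    have h5 := hS.hv y hy
    have h6 := nd_le_add_abs (κ' y * u x - κ x * v y) (κ x * (v y - κ' y * φ' - r') - κ' y * (u x - κ x * φ - r))
    have e1 : κ' y * u x - κ x * v y + (κ x * (v y - κ' y * φ' - r') - κ' y * (u x - κ x * φ - r)) =
        κ' y * (κ x * D + r) + -(κ x * r') := by
      rw [hD]
      ring
    rw [e1] at h6
    have h7 := abs_sub (κ x * (v y - κ' y * φ' - r')) (κ' y * (u x - κ x * φ - r))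
    rw [abs_mul, abs_mul, Nat.abs_cast, Nat.abs_cast] at h7
    have h8 : (κ x : ℝ) ≤ 2 * K := by
      have := (hX.hi x (hS.hA hx)).le
      exact_mod_cast this
    have h9 : (κ' y : ℝ) ≤ 2 * K := by
      have := (hX'.hi y (hS.hB hy)).le
      exact_mod_cast this
    have h10 : (κ x : ℝ) * |v y - κ' y * φ' - r'| ≤ 2 * K * Z := mul_le_mul h8 h5 (abs_nonneg _) (by linarith)
    have h11 : (κ' y : ℝ) * |u x - κ x * φ - r| ≤ 2 * K * Z := mul_le_mul h9 h4 (abs_nonneg _) (by linarith)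
    linarith
  obtain ⟨A₁, hA₁, hA₁c, hA₁N⟩ := en_rich h0 hS.hA hS.hB hne' hS.hc
  have hδ2 : δ ^ 2 ≤ δ / 2 := by nlinarith
  have hδ2' : δ ^ 2 ≤ 1 / 2 := by linarith
  have hch : ∀ x, ∃ q : ℕ, x ∈ A₁ → 1 ≤ q ∧ δ ^ 6 * q ≤ 1 ∧ δ ^ 16 * K * nd (q * (κ x * D + r)) ≤ e := by
    intro x
    by_cases hx : x ∈ A₁
    · obtain ⟨N, hN1, hN2, hN3⟩ := hA₁N x hx
      obtain ⟨q, hq1, hq2, hq3⟩ := vx (α := κ x * D + r) (β := -(κ x * r')) (e := e) (hX'.mono (δ' := δ ^ 2) (by linarith))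
        (pow_pos h0 2) hδ2' hne' he0.le (by rw [← pow_mul]; exact he1) (by
          rw [← pow_mul]
          have h3 := mul_le_mul_of_nonneg_right (hmono (2 * 9) 72 (by norm_num)) hK0.le
          linarith) N (hN1.trans hS.hB) ((mul_le_mul_of_nonneg_right hδ2 hX1'.le).trans hN3)
        (fun y hy => hrel x (hA₁ hx) y (hN1 hy) (hN2 y hy))
      rw [← pow_mul] at hq2 hq3
      exact ⟨q, fun _ => ⟨hq1, hq2, hq3⟩⟩
    · exact ⟨0, fun h => absurd h hx⟩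
  choose qf hqf using hch
  obtain ⟨Q, hQ⟩ : ∃ Q : ℕ, Q = ⌊1 / δ ^ 6⌋₊ := ⟨_, rfl⟩
  have h6p : 0 < δ ^ 6 := pow_pos h0 6
  have hQ1 : δ ^ 6 * (Q : ℝ) ≤ 1 := by
    have h3 : (Q : ℝ) ≤ 1 / δ ^ 6 := by
      rw [hQ]
      exact Nat.floor_le (by positivity)
    rw [le_div_iff₀ h6p] at h3
    linarith
  have hmaps : ∀ x ∈ A₁, qf x ∈ Finset.Icc 1 Q := by
    intro x hx
    obtain ⟨h3, h4, -⟩ := hqf x hx
    rw [Finset.mem_Icc]
    refine ⟨h3, ?_⟩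
    rw [hQ]
    refine Nat.le_floor ?_
    rw [le_div_iff₀ h6p]
    linarith
  have hA₁ne : A₁.Nonempty := by
    rw [← Finset.card_pos]
    have h3 : (0 : ℝ) < A₁.card := lt_of_lt_of_le (mul_pos (by linarith) hX1) hA₁c
    exact_mod_cast h3
  obtain ⟨x₁, hx₁⟩ := hA₁ne
  obtain ⟨q₁, hq₁m, hq₁c⟩ := Finset.exists_le_card_fiber_of_nsmul_le_card_of_maps_to (b := δ ^ 8 * (X.card : ℝ)) hmaps
    ⟨_, hmaps x₁ hx₁⟩ (by
      rw [Nat.card_Icc, Nat.add_sub_cancel, nsmul_eq_mul]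
      have e1 : (Q : ℝ) * (δ ^ 8 * X.card) = (δ ^ 6 * Q) * (δ ^ 2 * X.card) := by ring
      rw [e1]
      have h3 : (δ ^ 6 * Q) * (δ ^ 2 * X.card) ≤ 1 * (δ ^ 2 * X.card) := mul_le_mul_of_nonneg_right hQ1 (by positivity)
      have h4 := mul_le_mul_of_nonneg_right hδ2 hX1.le
      linarith)
  obtain ⟨A₂, hA₂⟩ : ∃ A₂ : Finset ι, A₂ = A₁.filter fun x => qf x = q₁ := ⟨_, rfl⟩
  rw [← hA₂] at hq₁c
  have hA₂s : ∀ x ∈ A₂, x ∈ A₁ ∧ qf x = q₁ := by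
    intro x hx
    rw [hA₂] at hx
    exact Finset.mem_filter.1 hx
  have hA₂ne : A₂.Nonempty := by
    rw [← Finset.card_pos]
    have h3 : (0 : ℝ) < A₂.card := lt_of_lt_of_le (mul_pos (pow_pos h0 8) hX1) hq₁c
    exact_mod_cast h3
  obtain ⟨x₂, hx₂⟩ := hA₂ne
  have hq₁1 : 1 ≤ q₁ := (Finset.mem_Icc.1 hq₁m).1
  have hq₁2 : δ ^ 6 * (q₁ : ℝ) ≤ 1 := by
    have h3 := (hqf x₂ (hA₂s x₂ hx₂).1).2.1
    rwa [(hA₂s x₂ hx₂).2] at h3
  obtain ⟨e₂, he₂⟩ : ∃ e₂ : ℝ, e₂ = e / (δ ^ 16 * K) := ⟨_, rfl⟩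
  have h16K : 0 < δ ^ 16 * (K : ℝ) := mul_pos (pow_pos h0 16) hK0
  have he₂m : δ ^ 16 * K * e₂ = e := by
    rw [he₂]
    field_simp
  have he₂0 : 0 < e₂ := by
    rw [he₂]
    exact div_pos he0 h16K
  have hnd₂ : ∀ x ∈ A₂, nd (κ x * (q₁ * D) + q₁ * r) ≤ e₂ := by
    intro x hx
    have h3 := (hqf x (hA₂s x hx).1).2.2
    rw [(hA₂s x hx).2] at h3
    have e1 : (q₁ : ℝ) * (κ x * D + r) = κ x * (q₁ * D) + q₁ * r := by ring
    rw [e1, ← he₂m] at h3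
    exact le_of_mul_le_mul_left h3 h16K
  obtain ⟨q₂, hq₂1, hq₂2, hq₂3⟩ := vx (α := q₁ * D) (β := q₁ * r) (e := e₂) (hX.mono (δ' := δ ^ 8) (by
      have h3 := hmono 1 8 (by norm_num)
      rwa [pow_one] at h3)) (pow_pos h0 8) ((hmono 2 8 (by norm_num)).trans hδ2') hne he₂0.le (by
      rw [← pow_mul]
      norm_num
      refine le_of_mul_le_mul_left ?_ h16K
      rw [he₂m]
      have e1 : δ ^ 16 * K * δ ^ 48 = δ ^ 64 * K := by ring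
      rw [e1]
      have h3 := mul_le_mul_of_nonneg_right (hmono 64 72 (by norm_num)) hK0.le
      have h4 := hmono 0 12 (by norm_num)
      rw [pow_zero] at h4
      linarith) (by
      rw [← pow_mul]
      exact hK) A₂ (fun x hx => hS.hA (hA₁ (hA₂s x hx).1)) hq₁c hnd₂
  rw [← pow_mul] at hq₂2 hq₂3
  norm_num at hq₂2 hq₂3
  refine ⟨round (((q₁ * q₂ : ℕ) : ℝ) * r), q₁ * q₂, Nat.mul_pos hq₁1 hq₂1, ?_, ?_⟩
  · push_cast
    have e1 : δ ^ 30 * ((q₁ : ℝ) * q₂) = (δ ^ 6 * q₁) * (δ ^ 24 * q₂) := by ring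
    rw [e1]
    exact mul_le_one₀ hq₁2 (by positivity) hq₂2
  · obtain ⟨q, hq⟩ : ∃ q : ℕ, q = q₁ * q₂ := ⟨_, rfl⟩
    rw [← hq]
    have hqp : 1 ≤ q := by rw [hq]; exact Nat.mul_pos hq₁1 hq₂1
    have hqr : (1 : ℝ) ≤ q := by exact_mod_cast hqp
    have h3 : |r - (round ((q : ℝ) * r) : ℝ) / q| ≤ nd (q * r) := by
      have e1 : r - (round ((q : ℝ) * r) : ℝ) / q = (q * r - round ((q : ℝ) * r)) / q := by
        field_simp
      rw [e1, abs_div, Nat.abs_cast]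
      exact div_le_self (abs_nonneg _) hqr
    have h4 : nd (q * r) ≤ q₂ * e₂ + κ x₂ * nd (q₂ * (q₁ * D)) := by
      have h5 := nd_sub_le ((q₂ : ℝ) * (κ x₂ * (q₁ * D) + q₁ * r)) (κ x₂ * (q₂ * (q₁ * D)))
      have e1 : (q₂ : ℝ) * (κ x₂ * (q₁ * D) + q₁ * r) - κ x₂ * (q₂ * (q₁ * D)) = q * r := by
        rw [hq]
        push_cast
        ring
      rw [e1] at h5
      have h6 := nd_nat_mul_le q₂ (κ x₂ * (q₁ * D) + q₁ * r)
      have h7 := nd_nat_mul_le (κ x₂) (q₂ * (q₁ * D))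
      have h8 := mul_le_mul_of_nonneg_left (hnd₂ x₂ hx₂) (Nat.cast_nonneg (α := ℝ) q₂)
      linarith
    have h5 : (κ x₂ : ℝ) ≤ 2 * K := by
      have := (hX.hi x₂ (hS.hA (hA₁ (hA₂s x₂ hx₂).1))).le
      exact_mod_cast this
    have hnn : 0 ≤ nd (q₂ * (q₁ * D)) := nd_nonneg _
    have h82 : 0 < δ ^ 82 * (K : ℝ) := mul_pos (pow_pos h0 82) hK0
    have t1 : δ ^ 82 * K * (q₂ * e₂) ≤ e / 4 := by
      have e1 : δ ^ 82 * K * (q₂ * e₂) = (δ ^ 24 * q₂) * (δ ^ 42 * (δ ^ 16 * K * e₂)) := by ring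
      rw [e1, he₂m]
      have h6 : (δ ^ 24 * q₂) * (δ ^ 42 * e) ≤ 1 * (δ ^ 42 * e) := mul_le_mul_of_nonneg_right hq₂2 (by positivity)
      have h7 : δ ^ 42 ≤ 1 / 4 := (hmono 2 42 (by norm_num)).trans (by nlinarith)
      have h8 := mul_le_mul_of_nonneg_right h7 he0.le
      linarith
    have t2 : δ ^ 82 * K * (κ x₂ * nd (q₂ * (q₁ * D))) ≤ e / 2 := by
      have h6 : κ x₂ * nd (q₂ * (q₁ * D)) ≤ 2 * K * nd (q₂ * (q₁ * D)) := mul_le_mul_of_nonneg_right h5 hnn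
      have h7 := mul_le_mul_of_nonneg_left h6 h82.le
      have e1 : δ ^ 82 * K * (2 * K * nd (q₂ * (q₁ * D))) = 2 * δ ^ 18 * K * (δ ^ 64 * K * nd (q₂ * (q₁ * D))) := by ring
      rw [e1] at h7
      have h8 : 2 * δ ^ 18 * K * (δ ^ 64 * K * nd (q₂ * (q₁ * D))) ≤ 2 * δ ^ 18 * K * e₂ :=
        mul_le_mul_of_nonneg_left hq₂3 (by positivity)
      have e2 : 2 * δ ^ 18 * K * e₂ = 2 * δ ^ 2 * (δ ^ 16 * K * e₂) := by ring
      rw [e2, he₂m] at h8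
      have h9 : 2 * δ ^ 2 ≤ 1 / 2 := by nlinarith
      have h10 := mul_le_mul_of_nonneg_right h9 he0.le
      linarith
    have h6 := mul_le_mul_of_nonneg_left (h3.trans h4) h82.le
    rw [mul_add] at h6
    linarith

end Pool.Agent.Lib.H84V
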