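import Pool.Agent.Lib.H84V.S0

/-!
# H84V, chunk S1: the initial state
-/

open Finset

namespace Pool.Agent.Lib.H84V

/-- PROOF. (1) `start0` for the exchanged roles (`v, u`, relation `fun y x => R x y`, `ec_swap`, `nd_neg`, `A = X'`, `B = X`): `B₁ ⊆ X'`, `φ' = (..) / h`, `r' = s / h`, `nd (v y - κ' y φ' - r') ≤ 2 ε` on `B₁`, `ec R X B₁ ≥ δ ^ 21 |X| |X'|`. Let `vt y = v y - round (v y - κ' y φ' - r')`, so
`|vt y - κ' y φ' - r'| ≤ 2 ε` on `B₁` (`nd` is this absolute value). The relation holds for `vt` too (`κ x` is an integer, `nd_add_int`). (2) `start0` for `u, vt`, `A = X`, `B = B₁`, with `δ ^ 21` instead of `δ` (`Idx.mono`, `1 ≤ δ ^ 168 K`): `A₁`, `y, z ∈ B₁`, `φ = (vt y - vt z) / h = φ' + ω / h`, `|ω| ≤ 4 ε`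
(`h = κ' y - κ' z`), so `|φ - φ'| ≤ 4 ε`; `r = s / h`, `ut x = u x - round (u x - κ x φ - r)`. `(δ ^ 21) ^ 21 = δ ^ 441`. -/
theorem init {ι ι' : Type} {X : Finset ι} {X' : Finset ι'} {κ : ι → ℕ} {κ' : ι' → ℕ} {K : ℕ} {δ ε : ℝ} {u : ι → ℝ}
    {v : ι' → ℝ} {R : ι → ι' → Prop} (h0 : 0 < δ) (h2 : δ ≤ 1 / 2) (hε : 0 < ε) (hX : Idx X κ K δ)
    (hX' : Idx X' κ' K δ) (hne : X.Nonempty) (hne' : X'.Nonempty)
    (hR : ∀ x ∈ X, ∀ y ∈ X', R x y → nd (κ' y * u x - κ x * v y) ≤ ε) (hc : δ * ((X.card : ℝ) * X'.card) ≤ ec R X X')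
    (hK : 1 ≤ δ ^ 168 * K) :
    ∃ (ut : ι → ℝ) (vt : ι' → ℝ), (∀ x, ∃ m : ℤ, ut x = u x + m) ∧ (∀ y, ∃ m : ℤ, vt y = v y + m) ∧
      ∃ (A : Finset ι) (B : Finset ι') (φ r φ' r' : ℝ), St X X' κ κ' R ut vt (δ ^ 441) (2 * ε) A B φ r φ' r' := by
  sorry

end Pool.Agent.Lib.H84V
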