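import Pool.Agent.Lib.H84V.RD
import Pool.Agent.Lib.H84V.S1

/-!
# H84V, chunk IT: iteration
-/

open Finset

namespace Pool.Agent.Lib.H84V

theorem it_aux (i : ℕ) : ∃ C : ℕ, 1 ≤ C ∧ ∀ {ι ι' : Type} {X : Finset ι} {X' : Finset ι'} {κ : ι → ℕ} {κ' : ι' → ℕ} {K : ℕ}
    {δ ε : ℝ} {u : ι → ℝ} {v : ι' → ℝ} {R : ι → ι' → Prop}, 0 < δ → δ ≤ 1 / 2 → 0 < ε → ε ≤ δ ^ C → 1 ≤ δ ^ C * K →
    Idx X κ K δ → Idx X' κ' K δ → X.Nonempty → X'.Nonempty →
    (∀ x ∈ X, ∀ y ∈ X', R x y → nd (κ' y * u x - κ x * v y) ≤ ε) → δ * ((X.card : ℝ) * X'.card) ≤ ec R X X' →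
    ∃ (ut : ι → ℝ) (vt : ι' → ℝ), (∀ x, ∃ m : ℤ, ut x = u x + m) ∧ (∀ y, ∃ m : ℤ, vt y = v y + m) ∧
      ∃ (A : Finset ι) (B : Finset ι') (φ r φ' r' Z : ℝ), St X X' κ κ' R ut vt (δ ^ C) Z A B φ r φ' r' ∧ 0 ≤ Z ∧
        δ ^ C * Z ≤ max (ε ^ (i + 1)) (ε / K) := by
  induction i with
  | zero =>
    refine ⟨441, by norm_num, ?_⟩
    intro ι ι' X X' κ κ' K δ ε u v R h0 h2 hε hε1 hK hX hX' hne hne' hR hc
    have hd1 : δ ≤ 1 := h2.trans (by norm_num)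
    have hK0 : (0 : ℝ) ≤ K := Nat.cast_nonneg K
    obtain ⟨ut, vt, hut, hvt, A, B, φ, r, φ', r', hS⟩ := init h0 h2 hε hX hX' hne hne' hR hc (by
      have h3 := mul_le_mul_of_nonneg_right (pow_le_pow_of_le_one h0.le hd1 (show 168 ≤ 441 by norm_num)) hK0
      linarith)
    refine ⟨ut, vt, hut, hvt, A, B, φ, r, φ', r', 2 * ε, hS, by linarith, ?_⟩
    refine le_trans ?_ (le_max_left _ _)
    have h3 : δ ^ 441 ≤ 1 / 2 := by
      have h4 := pow_le_pow_of_le_one h0.le hd1 (show 1 ≤ 441 by norm_num)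
      rw [pow_one] at h4
      linarith
    have h5 := mul_le_mul_of_nonneg_right h3 (show (0 : ℝ) ≤ 2 * ε by linarith)
    rw [zero_add, pow_one]
    linarith
  | succ i ih =>
    obtain ⟨C, hC1, hC⟩ := ih
    refine ⟨C * 2000, by omega, ?_⟩
    intro ι ι' X X' κ κ' K δ ε u v R h0 h2 hε hε1 hK hX hX' hne hne' hR hc
    have hd1 : δ ≤ 1 := h2.trans (by norm_num)
    rw [pow_mul] at hε1 hK
    obtain ⟨d, hd⟩ : ∃ d : ℝ, d = δ ^ C := ⟨_, rfl⟩
    have hd0 : 0 < d := by rw [hd]; exact pow_pos h0 C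
    have hdδ : d ≤ δ := by
      rw [hd]
      have h4 := pow_le_pow_of_le_one h0.le hd1 hC1
      rwa [pow_one] at h4
    have hd2 : d ≤ 1 / 2 := hdδ.trans h2
    have hd11 : d ≤ 1 := hd2.trans (by norm_num)
    have hmono : ∀ n m : ℕ, n ≤ m → d ^ m ≤ d ^ n := fun n m hnm => pow_le_pow_of_le_one hd0.le hd11 hnm
    rw [← hd] at hε1 hK
    have hK0 : (0 : ℝ) ≤ K := Nat.cast_nonneg K
    have hKm : ∀ n : ℕ, n ≤ 2000 → 1 ≤ d ^ n * (K : ℝ) := by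
      intro n hn
      have h3 := mul_le_mul_of_nonneg_right (hmono n 2000 hn) hK0
      linarith
    have hK1 : (1 : ℝ) ≤ K := by
      have h3 := hKm 0 (by norm_num)
      rwa [pow_zero, one_mul] at h3
    have hε11 : ε ≤ 1 := hε1.trans (pow_le_one₀ hd0.le hd11)
    obtain ⟨ut, vt, hut, hvt, A, B, φ, r, φ', r', Z₀, hS, hZ₀, hZ₀1⟩ := hC (u := u) (v := v) (R := R) h0 h2 hε (by
        rw [← hd]
        have h3 := hmono 1 2000 (by norm_num)
        rw [pow_one] at h3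
        linarith) (by
        rw [← hd]
        have h3 := hKm 1 (by norm_num)
        rwa [pow_one] at h3) hX hX' hne hne' hR hc
    rw [← hd] at hS hZ₀1
    obtain ⟨M, hM⟩ : ∃ M : ℝ, M = max (ε ^ (i + 1)) (ε / K) := ⟨_, rfl⟩
    rw [← hM] at hZ₀1
    have hM0 : 0 < M := by
      rw [hM]
      exact lt_max_of_lt_left (pow_pos hε _)
    have hMε : M ≤ ε := by
      rw [hM]
      refine max_le ?_ (div_le_self hε.le hK1)
      have h3 := pow_le_pow_of_le_one hε.le hε11 (show 1 ≤ i + 1 by omega)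
      rwa [pow_one] at h3
    obtain ⟨Z, hZ⟩ : ∃ Z : ℝ, Z = M / d := ⟨_, rfl⟩
    have hZ0 : 0 < Z := by rw [hZ]; exact div_pos hM0 hd0
    have hdZ : d * Z = M := by
      rw [hZ]
      field_simp
    have hZZ : Z₀ ≤ Z := by
      refine le_of_mul_le_mul_left ?_ hd0
      rw [hdZ]
      exact hZ₀1
    have hZ1 : Z ≤ d ^ 1999 := by
      refine le_of_mul_le_mul_left ?_ hd0
      rw [hdZ, ← pow_succ']
      exact hMε.trans hε1
    obtain ⟨H, hH⟩ : ∃ H : ℝ, H = min (K : ℝ) (d ^ 1690 / Z) := ⟨_, rfl⟩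
    have hHK : H ≤ K := by rw [hH]; exact min_le_left _ _
    have hHZ : H * Z ≤ d ^ 1690 := by
      have h3 : H ≤ d ^ 1690 / Z := by rw [hH]; exact min_le_right _ _
      rwa [le_div_iff₀ hZ0] at h3
    have hH1 : 1 ≤ d ^ 104 * H := by
      rw [hH]
      rcases le_total (K : ℝ) (d ^ 1690 / Z) with h3 | h3
      · rw [min_eq_left h3]
        exact hKm 104 (by norm_num)
      · rw [min_eq_right h3, ← mul_div_assoc, le_div_iff₀ hZ0, one_mul, ← pow_add]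
        exact hZ1.trans (hmono _ _ (by norm_num))
    have hR' : ∀ x ∈ X, ∀ y ∈ X', R x y → nd (κ' y * ut x - κ x * vt y) ≤ ε := by
      intro x hx y hy hxy
      obtain ⟨m, hm⟩ := hut x
      obtain ⟨n, hn⟩ := hvt y
      have h3 := nd_add_int (κ' y * u x - κ x * v y) (κ' y * m - κ x * n)
      have e1 : κ' y * u x - κ x * v y + ((κ' y * m - κ x * n : ℤ) : ℝ) = κ' y * ut x - κ x * vt y := by
        rw [hm, hn]
        push_cast
        ring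
      rw [e1] at h3
      rw [h3]
      exact hR x hx y hy hxy
    obtain ⟨A₁, B₁, φ₁, r₁, φ₁', r₁', hS₁⟩ := round1 hd0 hd2 hε (hX.mono hdδ) (hX'.mono hdδ) hne hne' hR'
      (hS.mono le_rfl hZZ) hZ0.le (hKm 1521 (by norm_num)) hH1 hHK (hε1.trans (hmono _ _ (by norm_num))) hHZ
    have hH0 : 0 < H := by
      by_contra hneg
      have h4 : d ^ 104 * H ≤ 0 := mul_nonpos_of_nonneg_of_nonpos (pow_pos hd0 104).le (not_lt.1 hneg)
      linarith
    have h130H : 0 < d ^ 130 * H := mul_pos (pow_pos hd0 130) hH0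
    have e2000 : δ ^ (C * 2000) = d ^ 2000 := by rw [pow_mul, hd]
    refine ⟨ut, vt, hut, hvt, A₁, B₁, φ₁, r₁, φ₁', r₁', ε / (d ^ 130 * H), ?_, (div_pos hε h130H).le, ?_⟩
    · rw [e2000]
      exact hS₁.mono (hmono _ _ (by norm_num)) le_rfl
    · rw [e2000]
      rw [hH]
      rcases le_total (K : ℝ) (d ^ 1690 / Z) with h3 | h3
      · rw [min_eq_left h3]
        refine le_trans ?_ (le_max_right _ _)
        have hKp : (0 : ℝ) < K := by linarith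
        have e1 : d ^ 2000 * (ε / (d ^ 130 * K)) = d ^ 1870 * (ε / K) := by
          have e3 : d ^ 2000 = d ^ 1870 * d ^ 130 := by rw [← pow_add]
          rw [e3]
          have h5 : d ^ 130 ≠ 0 := (pow_pos hd0 130).ne'
          field_simp
        rw [e1]
        exact mul_le_of_le_one_left (div_pos hε hKp).le (pow_le_one₀ hd0.le hd11)
      · rw [min_eq_right h3]
        have e1 : d ^ 2000 * (ε / (d ^ 130 * (d ^ 1690 / Z))) = d ^ 179 * (ε * M) := by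
          have e3 : d ^ 2000 = d ^ 179 * (d ^ 1 * (d ^ 1690 * d ^ 130)) := by rw [← pow_add, ← pow_add, ← pow_add]
          rw [e3, ← hdZ]
          have h5 : d ^ 130 ≠ 0 := (pow_pos hd0 130).ne'
          have h6 : d ^ 1690 ≠ 0 := (pow_pos hd0 1690).ne'
          field_simp
        rw [e1]
        have h5 : d ^ 179 * (ε * M) ≤ ε * M := mul_le_of_le_one_left (mul_pos hε hM0).le (pow_le_one₀ hd0.le hd11)
        refine h5.trans ?_
        rw [hM, mul_max_of_nonneg _ _ hε.le]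
        refine max_le_max ?_ ?_
        · rw [← pow_succ']
        · exact mul_le_of_le_one_left (div_nonneg hε.le hK0) hε11

/-- PROOF. Induction on `i`. `i = 0`: `init`, `Z = 2 ε`, `C = 441` (`δ ^ C * 2 ε ≤ ε`). Step: let `C` be the constant for `i`, `d = δ ^ C` (`0 < d ≤ 1/2`, if `C ≥ 1`; enlarge `C`), new constant `C' = 2000 C`. Take the state for `i` and enlarge `Z` (`St.mono`) to `Z = max (ε ^ (i + 1)) (ε / K) / d`, which is positive and `≤ ε / d`.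
`round1` with `d` for `δ` and `H = min K (d ^ 1690 / Z)`: `1 ≤ d ^ 104 H` (`1 ≤ δ ^ C' K`, and `d ^ 1794 / Z ≥ d ^ 1795 / ε ≥ 1` by `ε ≤ δ ^ C'`), `H Z ≤ d ^ 1690`. The new `Z₁ = ε / (d ^ 130 H) = max (ε / (d ^ 130 K)) (ε Z / d ^ 1820)`, and `ε Z = max (ε ^ (i + 2)) (ε ^ 2 / K) / d`, so
`d ^ 1821 Z₁ ≤ max (ε ^ (i + 2)) (ε / K)` (`ε ≤ 1`); `δ ^ C' ≤ d ^ 1821, d ^ 169`. The translates `ut, vt` stay the same; the relation for them is the same (`κ x, κ' y` are integers, `nd_add_int`). -/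
theorem iter (i : ℕ) : ∃ C : ℕ, ∀ {ι ι' : Type} {X : Finset ι} {X' : Finset ι'} {κ : ι → ℕ} {κ' : ι' → ℕ} {K : ℕ}
    {δ ε : ℝ} {u : ι → ℝ} {v : ι' → ℝ} {R : ι → ι' → Prop}, 0 < δ → δ ≤ 1 / 2 → 0 < ε → ε ≤ δ ^ C → 1 ≤ δ ^ C * K →
    Idx X κ K δ → Idx X' κ' K δ → X.Nonempty → X'.Nonempty →
    (∀ x ∈ X, ∀ y ∈ X', R x y → nd (κ' y * u x - κ x * v y) ≤ ε) → δ * ((X.card : ℝ) * X'.card) ≤ ec R X X' →
    ∃ (ut : ι → ℝ) (vt : ι' → ℝ), (∀ x, ∃ m : ℤ, ut x = u x + m) ∧ (∀ y, ∃ m : ℤ, vt y = v y + m) ∧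
      ∃ (A : Finset ι) (B : Finset ι') (φ r φ' r' Z : ℝ), St X X' κ κ' R ut vt (δ ^ C) Z A B φ r φ' r' ∧ 0 ≤ Z ∧
        δ ^ C * Z ≤ max (ε ^ (i + 1)) (ε / K) := by
  obtain ⟨C, -, hC⟩ := it_aux i
  exact ⟨C, hC⟩

end Pool.Agent.Lib.H84V
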