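import Pool.Agent.Lib.H84V.IT
import Pool.Agent.Lib.H84V.EN

/-!
# H84V, chunk LP: Lemma P
-/

open Finset

namespace Pool.Agent.Lib.H84V

/-- **Lemma P.** PROOF. `X` and `X'` are nonempty, or take `A = X` (if `X` is empty: `A = ∅`, `q = 1`; if `X'` is empty and `X` not: `Idx X' κ' K δ` and everything holds vacuously, but the conclusion is about `X`: this case is excluded by `hne'`). `iter J` (constant `C`): state with `δ ^ C Z ≤ max (ε ^ (J + 1)) (ε / K) = ε / K`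
(`K ε ^ J ≤ 1`). Let `d = δ ^ C`, `Z ≤ ε / (d K)`. `endr` with `d` for `δ` (`Idx.mono`), `e = ε + 4 K Z ≤ 5 ε / d ≤ d ^ 12` (`ε ≤ δ ^ C'`, `C'` large): `|r - p / q| ≤ e / (d ^ 82 K)`, so on `A`: `nd (u x - κ x φ - p / q) = nd (ut x - ..) ≤ Z + |r - p / q| ≤ ε / (δ ^ C' K)`. `|A| ≥ d |X|` by `ec_le`. -/
theorem lemmaP (J : ℕ) : ∃ C : ℕ, ∀ {ι ι' : Type} {X : Finset ι} {X' : Finset ι'} {κ : ι → ℕ} {κ' : ι' → ℕ} {K : ℕ}
    {δ ε : ℝ} {u : ι → ℝ} {v : ι' → ℝ} {R : ι → ι' → Prop}, 0 < δ → δ ≤ 1 / 2 → 0 < ε → ε ≤ δ ^ C → 1 ≤ δ ^ C * K →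
    K * ε ^ J ≤ 1 → Idx X κ K δ → Idx X' κ' K δ → X'.Nonempty →
    (∀ x ∈ X, ∀ y ∈ X', R x y → nd (κ' y * u x - κ x * v y) ≤ ε) → δ * ((X.card : ℝ) * X'.card) ≤ ec R X X' →
    ∃ A ⊆ X, δ ^ C * X.card ≤ A.card ∧ ∃ (φ : ℝ) (p : ℤ) (q : ℕ), 1 ≤ q ∧ δ ^ C * q ≤ 1 ∧
      ∀ x ∈ A, δ ^ C * K * nd (u x - κ x * φ - p / q) ≤ ε := by
  obtain ⟨C₀, hit⟩ := iter J
  refine ⟨84 * (C₀ + 1) + 3, ?_⟩
  intro ι ι' X X' κ κ' K δ ε u v R h0 h2 hε hεC hKC hKJ hX hX' hne' hR hc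
  have hd1 : δ ≤ 1 := by linarith
  rcases X.eq_empty_or_nonempty with hXe | hne
  · refine ⟨∅, by rw [hXe], by rw [hXe]; simp, 0, 0, 1, le_rfl, ?_, ?_⟩
    · rw [Nat.cast_one, mul_one]
      exact pow_le_one₀ h0.le hd1
    · intro x hx
      exact absurd hx (Finset.notMem_empty x)
  obtain ⟨d, hd⟩ : ∃ d : ℝ, d = δ ^ (C₀ + 1) := ⟨_, rfl⟩
  have hdp : 0 < d := hd ▸ pow_pos h0 _
  have hdδ : d ≤ δ := by
    rw [hd]
    calc δ ^ (C₀ + 1) ≤ δ ^ 1 := pow_le_pow_of_le_one h0.le hd1 (by omega)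
      _ = δ := pow_one δ
  have hdC : d ≤ δ ^ C₀ := by
    rw [hd]
    exact pow_le_pow_of_le_one h0.le hd1 (by omega)
  have hdle : d ≤ 1 := hdδ.trans hd1
  have hCle : ∀ k : ℕ, k ≤ 84 → δ ^ (84 * (C₀ + 1) + 3) ≤ δ ^ 3 * d ^ k := by
    intro k hk
    rw [pow_add, mul_comm, hd]
    have h3 : δ ^ (84 * (C₀ + 1)) ≤ (δ ^ (C₀ + 1)) ^ k := by
      rw [← pow_mul]
      refine pow_le_pow_of_le_one h0.le hd1 ?_
      calc (C₀ + 1) * k ≤ (C₀ + 1) * 84 := Nat.mul_le_mul_left _ hk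
        _ = 84 * (C₀ + 1) := mul_comm _ _
    exact mul_le_mul_of_nonneg_left h3 (pow_nonneg h0.le 3)
  have hδ3 : δ ^ 3 ≤ 1 / 8 := by
    calc δ ^ 3 ≤ (1 / 2 : ℝ) ^ 3 := pow_le_pow_left₀ h0.le h2 3
      _ = 1 / 8 := by norm_num
  have hKpos : (0 : ℝ) < K := by
    by_contra hK0
    push Not at hK0
    have h3 : δ ^ (84 * (C₀ + 1) + 3) * (K : ℝ) ≤ 0 := mul_nonpos_of_nonneg_of_nonpos (pow_nonneg h0.le _) hK0
    linarith
  have hCC₀ : δ ^ (84 * (C₀ + 1) + 3) ≤ δ ^ C₀ := pow_le_pow_of_le_one h0.le hd1 (by omega)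
  obtain ⟨ut, vt, hut, hvt, A, B, φ, r, φ', r', Z, hS, hZ, hZm⟩ := hit h0 h2 hε (hεC.trans hCC₀)
    (hKC.trans (mul_le_mul_of_nonneg_right hCC₀ hKpos.le)) hX hX' hne hne' hR hc
  have hJ : ε ^ (J + 1) ≤ ε / K := by
    rw [le_div_iff₀ hKpos, pow_succ]
    calc ε ^ J * ε * K = (K * ε ^ J) * ε := by ring
      _ ≤ 1 * ε := mul_le_mul_of_nonneg_right hKJ hε.le
      _ = ε := one_mul ε
  have hZ1 : d * Z ≤ ε / K := by
    calc d * Z ≤ δ ^ C₀ * Z := mul_le_mul_of_nonneg_right hdC hZ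
      _ ≤ max (ε ^ (J + 1)) (ε / K) := hZm
      _ = ε / K := max_eq_right hJ
  have hZ2 : d * Z * K ≤ ε := (le_div_iff₀ hKpos).1 hZ1
  have hZ3 : K * Z ≤ ε / d := by
    rw [le_div_iff₀ hdp]
    calc K * Z * d = d * Z * K := by ring
      _ ≤ ε := hZ2
  have hS' := hS.mono hdC (le_refl Z)
  have he : ε + 4 * K * Z ≤ 5 * ε / d := by
    have h5 : ε ≤ ε / d := by
      rw [le_div_iff₀ hdp]
      exact mul_le_of_le_one_right hε.le hdle
    have h6 : 5 * ε / d = ε / d + 4 * (ε / d) := by ring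
    rw [h6]
    have h7 : 4 * (K : ℝ) * Z = 4 * (K * Z) := by ring
    rw [h7]
    linarith
  have he1 : 5 * ε / d ≤ d ^ 12 := by
    rw [div_le_iff₀ hdp, ← pow_succ]
    have h7 := hεC.trans (hCle 13 (by norm_num))
    have h8 : 0 < d ^ 13 := pow_pos hdp 13
    calc 5 * ε ≤ 5 * (δ ^ 3 * d ^ 13) := mul_le_mul_of_nonneg_left h7 (by norm_num)
      _ = (5 * δ ^ 3) * d ^ 13 := by ring
      _ ≤ 1 * d ^ 13 := mul_le_mul_of_nonneg_right (by linarith) h8.le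
      _ = d ^ (12 + 1) := one_mul _
  have hK72 : 1 ≤ d ^ 72 * K := by
    refine hKC.trans (mul_le_mul_of_nonneg_right ((hCle 72 (by norm_num)).trans ?_) hKpos.le)
    exact mul_le_of_le_one_left (pow_nonneg hdp.le _) (by linarith)
  obtain ⟨p, q, hq1, hq2, hpq⟩ := endr (u := ut) (v := vt) (R := R) hdp (hdδ.trans h2) (hX.mono hdδ) (hX'.mono hdδ) hne hne'
    (fun x hx y hy hxy => by
      obtain ⟨m, hm⟩ := hut x
      obtain ⟨n, hn⟩ := hvt y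
      have h9 : (κ' y : ℝ) * ut x - κ x * vt y = (κ' y * u x - κ x * v y) + ((κ' y * m - κ x * n : ℤ) : ℝ) := by
        rw [hm, hn]
        push_cast
        ring
      rw [h9, nd_add_int]
      exact hR x hx y hy hxy) hS' hZ hε he he1 hK72
  refine ⟨A, hS.hA, ?_, φ, p, q, hq1, ?_, ?_⟩
  · have hX'pos : (0 : ℝ) < X'.card := by exact_mod_cast hne'.card_pos
    have h10 : d * ((X.card : ℝ) * X'.card) ≤ (A.card : ℝ) * X'.card := by
      refine hS'.hc.trans ?_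
      have h11 : (ec R A B : ℝ) ≤ (A.card : ℝ) * B.card := by exact_mod_cast ec_le R A B
      refine h11.trans (mul_le_mul_of_nonneg_left ?_ (Nat.cast_nonneg _))
      exact_mod_cast Finset.card_le_card hS'.hB
    have h12 : d * (X.card : ℝ) ≤ A.card := by
      refine le_of_mul_le_mul_right ?_ hX'pos
      calc d * (X.card : ℝ) * X'.card = d * ((X.card : ℝ) * X'.card) := by ring
        _ ≤ _ := h10
    refine le_trans (mul_le_mul_of_nonneg_right ?_ (Nat.cast_nonneg _)) h12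
    refine (hCle 1 (by norm_num)).trans ?_
    rw [pow_one]
    exact mul_le_of_le_one_left hdp.le (by linarith)
  · refine le_trans (mul_le_mul_of_nonneg_right ?_ (Nat.cast_nonneg _)) hq2
    refine (hCle 30 (by norm_num)).trans ?_
    exact mul_le_of_le_one_left (pow_nonneg hdp.le _) (by linarith)
  · intro x hx
    obtain ⟨m, hm⟩ := hut x
    have h13 : nd (u x - κ x * φ - p / q) ≤ Z + |r - p / q| := by
      have h14 : ut x - κ x * φ - p / q = (u x - κ x * φ - p / q) + (m : ℝ) := by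
        rw [hm]
        ring
      rw [← nd_add_int _ m, ← h14]
      refine (nd_le_abs _).trans ?_
      have h15 : ut x - κ x * φ - p / q = (ut x - κ x * φ - r) + (r - p / q) := by ring
      rw [h15]
      exact (abs_add_le _ _).trans (add_le_add (hS.hu x hx) le_rfl)
    have hCK : 0 ≤ δ ^ (84 * (C₀ + 1) + 3) * (K : ℝ) := mul_nonneg (pow_nonneg h0.le _) hKpos.le
    refine (mul_le_mul_of_nonneg_left h13 hCK).trans ?_
    have h16 : δ ^ (84 * (C₀ + 1) + 3) * (K : ℝ) * Z ≤ δ ^ 3 * ε := by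
      calc δ ^ (84 * (C₀ + 1) + 3) * (K : ℝ) * Z ≤ δ ^ 3 * d ^ 1 * K * Z :=
            mul_le_mul_of_nonneg_right (mul_le_mul_of_nonneg_right (hCle 1 (by norm_num)) hKpos.le) hZ
        _ = δ ^ 3 * (d * Z * K) := by ring
        _ ≤ δ ^ 3 * ε := mul_le_mul_of_nonneg_left hZ2 (pow_nonneg h0.le 3)
    have h17 : δ ^ (84 * (C₀ + 1) + 3) * (K : ℝ) * |r - p / q| ≤ δ ^ 3 * (5 * ε) := by
      have h18 : d * (d ^ 82 * K * |r - p / q|) ≤ 5 * ε := by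
        calc d * (d ^ 82 * K * |r - p / q|) ≤ d * (5 * ε / d) := mul_le_mul_of_nonneg_left hpq hdp.le
          _ = 5 * ε := by field_simp
      calc δ ^ (84 * (C₀ + 1) + 3) * (K : ℝ) * |r - p / q| ≤ δ ^ 3 * d ^ 83 * K * |r - p / q| :=
            mul_le_mul_of_nonneg_right (mul_le_mul_of_nonneg_right (hCle 83 (by norm_num)) hKpos.le) (abs_nonneg _)
        _ = δ ^ 3 * (d * (d ^ 82 * K * |r - p / q|)) := by ring
        _ ≤ δ ^ 3 * (5 * ε) := mul_le_mul_of_nonneg_left h18 (pow_nonneg h0.le 3)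
    rw [mul_add]
    have h19 : δ ^ 3 * ε ≤ 1 / 8 * ε := mul_le_mul_of_nonneg_right hδ3 hε.le
    have h20 : δ ^ 3 * (5 * ε) ≤ 1 / 8 * (5 * ε) := mul_le_mul_of_nonneg_right hδ3 (by linarith)
    linarith

end Pool.Agent.Lib.H84V
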