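import Pool.Agent.Lib.H84V.LP
import Pool.Agent.Lib.H18V.Defs

/-!
# H84V, chunk LPA: Lemma P in the form of H18V
-/

open Finset

namespace Pool.Agent.Lib.H84V

open Pool.Agent.Lib.H18V (nn)

/-- PROOF. `lemmaP r` with `δ = 1 / D`, `X = X' = V`, `κ = κ' = k`, `u = v = th`, `R x y := (x, y) ∈ E`; the constant is `C' = 2 C + 2`. `|V| ≤ K B` (fibres over `Ico K (2 K)`, `Finset.card_eq_sum_card_fiberwise`), `(K B) ^ 2 / D ≤ |E| = ec R V V ≤ |V| ^ 2`, so `|V| ≥ K B / D`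
(`|V| ^ 2 ≥ (K B) ^ 2 / D ≥ (K B / D) ^ 2`) and `Idx V k K (1 / D)`: `(1 / D) (fibre * K) ≤ B K / D ≤ |V|`. `(1/D) |V| |V| ≤ (K B) ^ 2 / D ≤ ec`. `K ε ^ r ≤ K (D ^ C ε) ^ r ≤ 1` (`D ^ C ≥ 1`). From `nd (th x - k x φ - p / q) ≤ D ^ C ε / K`:
`nd (q (th x - k x φ)) ≤ q D ^ C ε / K ≤ D ^ (2 C) ε / K` (`nd_sub_int`, `nd_nat_mul_le`). `|A| ≥ |V| / D ^ C ≥ K B / D ^ (C + 1)`. -/
theorem LemmaP (r : ℕ) : ∃ C : ℕ, ∀ D : ℝ, 2 ≤ D → ∀ K B : ℕ, ∀ ε : ℝ, D ^ C ≤ K → 1 ≤ B →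
    0 < ε → D ^ C * ε ≤ 1 → K * (D ^ C * ε) ^ r ≤ 1 →
    ∀ {ι : Type} (V : Finset ι) (k : ι → ℕ) (th : ι → ℝ),
    (∀ x ∈ V, K ≤ k x ∧ k x < 2 * K) → (∀ m : ℕ, ((V.filter (fun x => k x = m)).card) ≤ B) →
    ∀ E : Finset (ι × ι), E ⊆ V ×ˢ V → ((K : ℝ) * B) ^ 2 / D ≤ E.card →
    (∀ p ∈ E, nn (k p.2 * th p.1 - k p.1 * th p.2) ≤ ε) →
    ∃ ph : ℝ, ∃ q : ℕ, 1 ≤ q ∧ (q : ℝ) ≤ D ^ C ∧ ∃ X ⊆ V, (K : ℝ) * B / D ^ C ≤ X.card ∧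
      ∀ x ∈ X, nn (q * (th x - k x * ph)) ≤ D ^ C * ε / K := by
  sorry

end Pool.Agent.Lib.H84V
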