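import Pool.Agent.Lib.H84V.Defs
import Pool.Agent.Lib.H44W.W0

/-!
# H84V, chunk MA: the geometric sum
-/

open Finset

namespace Pool.Agent.Lib.H84V

open Pool.Agent.H44W (ee)

/-- PROOF. Triangle inequality, `‖ee x‖ = 1`. -/
theorem ker_le (M : ℕ) (β : ℝ) : ‖∑ m ∈ Ico (0 : ℤ) M, ee (m * β)‖ ≤ M := by
  sorry

/-- PROOF. The sum is `∑_{m < M} z ^ m`, `z = ee β`. If `z = 1` then `β` is an integer and `nd β = 0`. Otherwise it is `(z ^ M - 1) / (z - 1)`, `‖z ^ M - 1‖ ≤ 2`, `‖z - 1‖ = 2 |sin (π β)| = 2 sin (π nd β) ≥ 4 nd β` (`Real.mul_le_sin`; replace `β` by `β - round β` and use the sign). -/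
theorem ker_nd (M : ℕ) (β : ℝ) : ‖∑ m ∈ Ico (0 : ℤ) M, ee (m * β)‖ * (2 * nd β) ≤ 1 := by
  sorry

end Pool.Agent.Lib.H84V
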