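import Pool.Agent.Lib.H84V.Defs
import Pool.Agent.Lib.H44W.W0

/-!
# H84V, chunk MB: Parseval modulo P
-/

open Finset

namespace Pool.Agent.Lib.H84V

open Pool.Agent.H44W (ee)

/-- PROOF. Expand the square (`‖S‖ ^ 2 = S * conj S`), exchange the sums: `∑_{z, z'} F z conj (F z') ∑_{u < P} ee ((z - z') u / P)`; the inner sum is `P` for `z = z'`; for `z ≠ z'`, `|z - z'| < P`, it is a geometric sum with ratio `ee ((z - z') / P) ≠ 1` whose `P`-th power is `1`, so it is `0`. -/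
theorem pars (P : ℕ) (hP : 1 ≤ P) (a : ℤ) (F : ℤ → ℂ) :
    (P : ℝ) * ∑ z ∈ Ico a (a + P), ‖F z‖ ^ 2 =
      ∑ u ∈ range P, ‖∑ z ∈ Ico a (a + P), F z * ee (z * ((u : ℝ) / P))‖ ^ 2 := by
  sorry

end Pool.Agent.Lib.H84V
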