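import Pool.Agent.Lib.H84V.Defs
import Pool.Agent.Lib.H44W.W0

/-!
# H84V, chunk MC: the transform of the sums along progressions
-/

open Finset

namespace Pool.Agent.Lib.H84V

open Pool.Agent.H44W (ee)

/-- PROOF. Exchange the sums. For fixed `m`, `0 ≤ m < M`, put `z = Y + h m`: `G (Y + h m) ee (Y α) = G z ee (z α) ee (- m h α)`; the terms with `z` outside `[-N, 3N)` are `0`, and `z ∈ [-N, 3N)`, `0 ≤ h m ≤ 2 N` give `Y ∈ [-3N, 3N)`, inside the window (`6 N ≤ P`). -/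
theorem transf (N M h P : ℕ) (hM : h * M ≤ 2 * N) (hP : 6 * N ≤ P) (G : ℤ → ℂ)
    (hG : ∀ z, z ∉ Ico (-(N : ℤ)) (3 * N) → G z = 0) (α : ℝ) :
    ∑ Y ∈ Ico (-(3 * N : ℤ)) (-(3 * N : ℤ) + P), (∑ m ∈ Ico (0 : ℤ) M, G (Y + h * m)) * ee (Y * α) =
      (∑ z ∈ Ico (-(N : ℤ)) (3 * N), G z * ee (z * α)) * ∑ m ∈ Ico (0 : ℤ) M, ee (m * (-(h * α))) := by
  sorry

end Pool.Agent.Lib.H84V
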