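import Pool.Agent.Lib.H84V.Defs

/-!
# H84V, chunk MD: counting fractions near rationals with small denominators
-/

open Finset

namespace Pool.Agent.Lib.H84V

/-- PROOF. For `u ∈ U` choose `b`, let `l = round (b u / P)` (an integer in `[0, b]`, as `0 ≤ b u / P < b`) and `c = b u - l P` (an integer with `|c| = P nd (b u / P) ≤ E`). The map `u ↦ (b, l, c)` is injective (`u = (c + l P) / b`) into `[1, B] × [0, B] × [-E, E]`
(`⌊B⌋₊` values, `⌊B⌋₊ + 1` values, `2 ⌊E⌋₊ + 1` values). -/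
theorem cnt (P : ℕ) (B E : ℝ) (hB : 1 ≤ B) (hE : 0 ≤ E) (U : Finset ℕ) (hU : U ⊆ range P)
    (h : ∀ u ∈ U, ∃ b : ℕ, 1 ≤ b ∧ (b : ℝ) ≤ B ∧ P * nd (b * ((u : ℝ) / P)) ≤ E) :
    (U.card : ℝ) ≤ B * (B + 1) * (2 * E + 1) := by
  sorry

end Pool.Agent.Lib.H84V
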