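import Pool.Agent.Lib.H84V.V3
import Pool.Agent.Lib.H84V.MA
import Pool.Agent.Lib.H84V.MD

/-!
# H84V, chunk ME: few major frequencies
-/

open Finset

namespace Pool.Agent.Lib.H84V

open Pool.Agent.H44W (ee)

/-- PROOF. Let `P = 20 N`, `u` major, `x = q u / P`, `T = {k ∈ [K, 2K) : ‖D(k)‖ ≥ M / D ^ 4}` (`D(k)` the inner sum). As `‖D(k)‖ ≤ M` (`ker_le`): `K M² / D ^ 7 ≤ |T| M² + K M² / D ^ 8`, so `|T| ≥ K / D ^ 7 - K / D ^ 8 ≥ K / D ^ 8` (`D ≥ 2`). For `k ∈ T`: `nd (k x) ≤ D ^ 4 / (2 M)` (`ker_nd`, `nd_neg`).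
`vino` with `N = K`, `a = K`, `η = 1 / D ^ 8`, `ε = D ^ 4 / M` (`≤ 1 / (16 D ^ 8)` by `M ≥ D ^ 16`), `24 D ^ 16 ≤ D ^ 21 ≤ K`: `q' ≤ 2 D ^ 8`, `nd (q' x) ≤ 16 D ^ 20 / (M K) ≤ 16 D ^ 21 / N` (`1 / (M K) ≤ D / N`). Put `b = q' q`, `1 ≤ b ≤ 2 D ^ 9 ≤ D ^ 10`,
`P nd (b u / P) ≤ 320 D ^ 21 ≤ D ^ 30`. `cnt` with `B = D ^ 10`, `E = D ^ 30`: at most `D ^ 10 (D ^ 10 + 1) (2 D ^ 30 + 1) ≤ D ^ 10 D ^ 11 D ^ 32 ≤ D ^ 54`. -/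
theorem major (D : ℝ) (hD : 2 ≤ D) (N K M q : ℕ) (hN : 1 ≤ N) (hq : 1 ≤ q) (hqD : (q : ℝ) ≤ D)
    (hKM : (N : ℝ) ≤ D * K * M) (hK : D ^ 21 ≤ K) (hM : D ^ 16 ≤ M) :
    (((range (20 * N)).filter fun u : ℕ => (K : ℝ) * M ^ 2 / D ^ 7 ≤
      ∑ k ∈ Ico K (2 * K), ‖∑ m ∈ Ico (0 : ℤ) M, ee (m * (-((k * q : ℕ) * ((u : ℝ) / (20 * N : ℕ)))))‖ ^ 2).card : ℝ) ≤
      D ^ 54 := by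
  sorry

end Pool.Agent.Lib.H84V
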