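import Pool.Agent.Lib.H84V.MB
import Pool.Agent.Lib.H84V.MC

/-!
# H84V, chunk MF: the mean square
-/

open Finset

namespace Pool.Agent.Lib.H84V

open Pool.Agent.H44W (ee)

/-- PROOF. Cauchy-Schwarz over the `4 K N` pairs `x = (k, Y)` (`sq_sum_le_card_mul_sum_sq`): `K N M² / (4 D²) ≤ ∑_k ∑_{Y ∈ [-N, 3N)} ‖F_k Y‖ ^ 2`, `F_k Y = ∑_{m < M} G (Y + k q m)`. Enlarge the range of `Y` to `[-3N, -3N + 20N)`, use `pars` with `P = 20 N`, `a = -3N`, and `transf` with `h = k q`, `α = u / P`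
(`k q M ≤ 2 K q M ≤ 2 N`), exchange the sums over `k` and `u`. -/
theorem meansq (D : ℝ) (hD : 2 ≤ D) (N K M q : ℕ) (hN : 1 ≤ N) (hKM : K * M * q ≤ N) (G : ℤ → ℂ)
    (hG : ∀ z, z ∉ Ico (-(N : ℤ)) (3 * N) → G z = 0)
    (h : (K : ℝ) * N * M / D ≤ ∑ x ∈ Ico K (2 * K) ×ˢ Ico (-(N : ℤ)) (3 * N),
        ‖∑ m ∈ Ico (0 : ℤ) M, G (x.2 + x.1 * q * m)‖) :
    (20 * N : ℕ) * ((K : ℝ) * N * M ^ 2 / (4 * D ^ 2)) ≤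
      ∑ u ∈ range (20 * N), ‖∑ z ∈ Ico (-(N : ℤ)) (3 * N), G z * ee (z * ((u : ℝ) / (20 * N : ℕ)))‖ ^ 2 *
        ∑ k ∈ Ico K (2 * K), ‖∑ m ∈ Ico (0 : ℤ) M, ee (m * (-((k * q : ℕ) * ((u : ℝ) / (20 * N : ℕ)))))‖ ^ 2 := by
  sorry

end Pool.Agent.Lib.H84V
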