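import Pool.Agent.Lib.H84V.ME
import Pool.Agent.Lib.H84V.MF

/-!
# H84V, chunk MG: MEAN, from means along progressions to one large Fourier coefficient
-/

open Finset

namespace Pool.Agent.Lib.H84V

open Pool.Agent.H44W (ee)

/-- PROOF. `C = 60`, `P = 20 N`. In `meansq` split the sum over `u` into major (`K M² / D ^ 7 ≤ κ(u)`, `κ(u)` the sum over `k`) and minor ones. Minor: at most `(K M² / D ^ 7) ∑_{u < P} ‖G^(u)‖ ^ 2 = (K M² / D ^ 7) P ∑_{z ∈ [-N, 3N)} ‖G z‖ ^ 2 ≤ (K M² / D ^ 7) P 4 N` (`pars` with `a = -3N`, `G` vanishes outside `[-N, 3N)`),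
at most half of the left side (`32 ≤ D ^ 5`). So `∑_{u major} ‖G^(u)‖ ^ 2 κ(u) ≥ P K N M² / (8 D²)`; `κ(u) ≤ K M²` (`ker_le`); by `major` there are at most `D ^ 54` major `u`, so for one of them `‖G^(u)‖ ^ 2 ≥ P N / (8 D ^ 56) ≥ N² / D ^ 56`; `th = u / P`, `N / D ^ 28`. -/
theorem MEAN : ∃ C : ℕ, ∀ D : ℝ, 2 ≤ D → ∀ N K M1 q : ℕ, 1 ≤ N → 1 ≤ q → (q : ℝ) ≤ D →
    K * M1 * q ≤ N → (N : ℝ) ≤ D * K * M1 → D ^ C ≤ K → D ^ C ≤ M1 →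
    ∀ G : ℤ → ℂ, (∀ z, ‖G z‖ ≤ 1) → (∀ z, z ∉ Ico (-(N : ℤ)) (3 * N) → G z = 0) →
    (K : ℝ) * N * M1 / D ≤ ∑ x ∈ Ico K (2 * K) ×ˢ Ico (-(N : ℤ)) (3 * N),
        ‖∑ m ∈ Ico (0 : ℤ) M1, G (x.2 + x.1 * q * m)‖ →
    ∃ th : ℝ, (N : ℝ) / D ^ C ≤ ‖∑ z ∈ Ico (-(N : ℤ)) (3 * N), G z * ee (z * th)‖ := by
  sorry

end Pool.Agent.Lib.H84V
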