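import Pool.Agent.Lib.H84V.ST

/-!
# H84V, chunk RD: one round
-/

open Finset

namespace Pool.Agent.Lib.H84V

/-- PROOF. (1) `step` with `Z' = Z` (`δ ^ 1521 ≤ δ ^ 117`, `δ ^ 104 ≤ δ ^ 8`, ..: powers of `δ ≤ 1`): `A₁`, `φ₁`, `r₁` with `|u x - κ x φ₁ - r₁| ≤ z₁ := ε / (δ ^ 9 H)` on `A₁`, `|φ₁ - φ'| ≤ Z / (δ ^ 9 H) ≤ Z`, `ec R A₁ B ≥ δ ^ 13 |X| |X'|`.
(2) `step` for the exchanged roles (`v` first, relation `fun y x => R x y`, `ec_swap`, `nd_neg`) with `δ ^ 13` (`Idx.mono`), own bound `max Z z₁` (`H max Z z₁ ≤ δ ^ 1690`: `ε / δ ^ 9 ≤ δ ^ 1691`), other bound `z₁`, `|φ' - φ₁| ≤ Z ≤ 2 max Z z₁`: `B₁ ⊆ B`, `φ₁'`, `r₁'`: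
`|v y - κ' y φ₁' - r₁'| ≤ ε / (δ ^ 117 H)`, `|φ₁' - φ₁| ≤ z₁ / (δ ^ 117 H) = ε / (δ ^ 126 H ^ 2)`, `ec R A₁ B₁ ≥ δ ^ 169 |X| |X'|`. All are at most `ε / (δ ^ 130 H)` (`H ≥ 1`). -/
theorem round1 {ι ι' : Type} {X : Finset ι} {X' : Finset ι'} {κ : ι → ℕ} {κ' : ι' → ℕ} {K : ℕ}
    {δ ε H Z φ r φ' r' : ℝ} {u : ι → ℝ} {v : ι' → ℝ} {R : ι → ι' → Prop} {A : Finset ι} {B : Finset ι'}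
    (h0 : 0 < δ) (h2 : δ ≤ 1 / 2) (hε : 0 < ε) (hX : Idx X κ K δ) (hX' : Idx X' κ' K δ) (hne : X.Nonempty)
    (hne' : X'.Nonempty) (hR : ∀ x ∈ X, ∀ y ∈ X', R x y → nd (κ' y * u x - κ x * v y) ≤ ε)
    (hS : St X X' κ κ' R u v δ Z A B φ r φ' r') (hZ : 0 ≤ Z) (hK : 1 ≤ δ ^ 1521 * K) (hH : 1 ≤ δ ^ 104 * H)
    (hHK : H ≤ K) (hε1 : ε ≤ δ ^ 1700) (hHZ : H * Z ≤ δ ^ 1690) :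
    ∃ (A₁ : Finset ι) (B₁ : Finset ι') (φ₁ r₁ φ₁' r₁' : ℝ),
      St X X' κ κ' R u v (δ ^ 169) (ε / (δ ^ 130 * H)) A₁ B₁ φ₁ r₁ φ₁' r₁' := by
  sorry

end Pool.Agent.Lib.H84V
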