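import Pool.Agent.Lib.H84V.CL2

/-!
# H84V, chunk S0: the start
-/

open Finset

namespace Pool.Agent.Lib.H84V

/-- PROOF. `cl2` with `H = 1 / δ ^ 8`: `y, z ∈ B`, `h = κ' y - κ' z` (a natural number with `1 ≤ h ≤ δ ^ (-8)`), `A' = A.filter (R · y ∧ R · z)`, `ec R A' B ≥ δ ^ 13 |X| |X'|`. For `x ∈ A'`: `nd (h u x - κ x (v y - v z)) ≤ 2 ε`; let `m_x = round (h u x - κ x (v y - v z))` and `s_x = m_x mod h`:
`|u x - κ x ((v y - v z) / h) - m_x / h| ≤ 2 ε / h ≤ 2 ε` and `(m_x - s_x) / h` is an integer. `ec R A' B = ∑_{0 ≤ s < h} ec R (A'.filter (s_x = s)) B`, so for some `s` the term is at least `δ ^ 13 |X| |X'| / h ≥ δ ^ 21 |X| |X'|`. -/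
theorem start0 {ι ι' : Type} {X : Finset ι} {X' : Finset ι'} {κ : ι → ℕ} {κ' : ι' → ℕ} {K : ℕ} {δ ε : ℝ} {u : ι → ℝ}
    {v : ι' → ℝ} {R : ι → ι' → Prop} {A : Finset ι} {B : Finset ι'} (h0 : 0 < δ) (h2 : δ ≤ 1 / 2) (hε : 0 < ε)
    (hX' : Idx X' κ' K δ) (hne : X.Nonempty) (hne' : X'.Nonempty)
    (hR : ∀ x ∈ X, ∀ y ∈ X', R x y → nd (κ' y * u x - κ x * v y) ≤ ε) (hA : A ⊆ X) (hB : B ⊆ X')
    (hc : δ * ((X.card : ℝ) * X'.card) ≤ ec R A B) (hK : 1 ≤ δ ^ 8 * K) :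
    ∃ A₁ ⊆ A, ∃ y ∈ B, ∃ z ∈ B, ∃ h : ℕ, ∃ s : ℤ, 1 ≤ h ∧ δ ^ 8 * h ≤ 1 ∧ (h : ℝ) = (κ' y : ℝ) - κ' z ∧
      δ ^ 21 * ((X.card : ℝ) * X'.card) ≤ ec R A₁ B ∧
      ∀ x ∈ A₁, nd (u x - κ x * ((v y - v z) / h) - s / h) ≤ 2 * ε := by
  classical
  have hd8 : 0 < δ ^ 8 := pow_pos h0 8
  have hH : 1 ≤ δ ^ 8 * (1 / δ ^ 8) := by rw [mul_one_div, div_self hd8.ne']
  have hHK : 1 / δ ^ 8 ≤ K := by
    rw [div_le_iff₀ hd8]
    linarith
  obtain ⟨y, hy, z, hz, h3, h4, h5⟩ := cl2 hX' h0 h2 hne hne' hH hHK R A hA B hB hc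
  have h3' : (1:ℝ) ≤ (κ' y : ℝ) - κ' z := hH.trans h3
  have hlt : κ' z < κ' y := by
    have : (κ' z : ℝ) < κ' y := by linarith
    exact_mod_cast this
  set h := κ' y - κ' z with hh
  have hhr : (h : ℝ) = (κ' y : ℝ) - κ' z := by rw [hh, Nat.cast_sub hlt.le]
  have hh1 : 1 ≤ h := by omega
  have hh0 : (0:ℝ) < h := by exact_mod_cast hh1
  have hh8 : δ ^ 8 * h ≤ 1 := by
    rw [hhr]
    have := mul_le_mul_of_nonneg_left h4 hd8.le
    rwa [mul_one_div, div_self hd8.ne'] at this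
  set A' := A.filter fun x => R x y ∧ R x z with hA'
  let m : ι → ℤ := fun x => round ((h : ℝ) * u x - κ x * (v y - v z))
  let sx : ι → ℤ := fun x => m x % h
  have hpig : ∃ s ∈ range h, δ ^ 21 * ((X.card : ℝ) * X'.card) ≤ ec R (A'.filter fun x => sx x = (s : ℤ)) B := by
    by_contra hcon
    push Not at hcon
    have h6 : (ec R A' B : ℝ) = ∑ s ∈ range h, (ec R (A'.filter fun x => sx x = (s : ℤ)) B : ℝ) := by
      have h7 : ∀ s ∈ range h, (ec R (A'.filter fun x => sx x = (s : ℤ)) B : ℝ) =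
          ∑ x ∈ A', (if sx x = (s : ℤ) then ((B.filter fun y => R x y).card : ℝ) else 0) := by
        intro s _
        rw [ec_eq_sum, Nat.cast_sum, Finset.sum_filter]
      rw [Finset.sum_congr rfl h7, Finset.sum_comm, ec_eq_sum, Nat.cast_sum]
      refine Finset.sum_congr rfl fun x _ => ?_
      have h8 : 0 ≤ sx x := Int.emod_nonneg _ (by omega)
      have h9 : sx x < h := Int.emod_lt_of_pos _ (by omega)
      rw [Finset.sum_eq_single (sx x).toNat]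
      · rw [if_pos (Int.toNat_of_nonneg h8).symm]
      · intro s _ hs
        rw [if_neg]
        intro h10
        apply hs
        omega
      · intro h10
        exfalso
        apply h10
        rw [Finset.mem_range]
        omega
    have hpos : (range h).Nonempty := ⟨0, Finset.mem_range.2 (by omega)⟩
    have h7 : (ec R A' B : ℝ) < h * (δ ^ 21 * ((X.card : ℝ) * X'.card)) := by
      rw [h6]
      refine (Finset.sum_lt_sum_of_nonempty hpos hcon).trans_le ?_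
      rw [Finset.sum_const, Finset.card_range, nsmul_eq_mul]
    have h8 : (h : ℝ) * (δ ^ 21 * ((X.card : ℝ) * X'.card)) ≤ δ ^ 13 * ((X.card : ℝ) * X'.card) := by
      have h9 : (h : ℝ) * (δ ^ 21 * ((X.card : ℝ) * X'.card)) = (δ ^ 8 * h) * (δ ^ 13 * ((X.card : ℝ) * X'.card)) := by ring
      rw [h9]
      exact mul_le_of_le_one_left (by positivity) hh8
    linarith
  obtain ⟨s, hs, hs2⟩ := hpig
  refine ⟨A'.filter fun x => sx x = (s : ℤ), (Finset.filter_subset _ _).trans (Finset.filter_subset _ _), y, hy, z, hz, h, s,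
    hh1, hh8, hhr, hs2, ?_⟩
  intro x hx
  obtain ⟨hx1, hx2⟩ := Finset.mem_filter.1 hx
  obtain ⟨hxA, hxy, hxz⟩ := Finset.mem_filter.1 hx1
  have e1 := hR x (hA hxA) y (hB hy) hxy
  have e2 := hR x (hA hxA) z (hB hz) hxz
  have e3 := nd_sub_le (κ' y * u x - κ x * v y) (κ' z * u x - κ x * v z)
  have e4 : κ' y * u x - κ x * v y - (κ' z * u x - κ x * v z) = (h : ℝ) * u x - κ x * (v y - v z) := by
    rw [hhr]
    ring
  rw [e4] at e3
  have e5 : |(h : ℝ) * u x - κ x * (v y - v z) - m x| ≤ 2 * ε := by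
    have : nd ((h : ℝ) * u x - κ x * (v y - v z)) = |(h : ℝ) * u x - κ x * (v y - v z) - m x| := rfl
    rw [← this]
    linarith
  have e6 : (m x : ℤ) = h * (m x / h) + s := by
    have h8 := Int.mul_ediv_add_emod (m x) h
    rw [← hx2]
    exact h8.symm
  have e7 : (m x : ℝ) = h * ((m x / h : ℤ) : ℝ) + s := by
    have := congrArg (fun t : ℤ => (t : ℝ)) e6
    push_cast at this
    exact this
  refine (nd_le_int _ (m x / h)).trans ?_
  have e8 : u x - κ x * ((v y - v z) / h) - ((s : ℤ) : ℝ) / h - ((m x / h : ℤ) : ℝ) =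
      ((h : ℝ) * u x - κ x * (v y - v z) - m x) / h := by
    rw [e7]
    push_cast
    field_simp
    ring
  rw [e8, abs_div, abs_of_pos hh0, div_le_iff₀ hh0]
  have h1r : (1:ℝ) ≤ h := by exact_mod_cast hh1
  nlinarith

end Pool.Agent.Lib.H84V
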