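import Pool.Agent.Lib.H84V.VX
import Pool.Agent.Lib.H84V.CL2

/-!
# H84V, chunk ST: the step
-/

open Finset

namespace Pool.Agent.Lib.H84V

theorem st_cl2 {ι ι' : Type} {X : Finset ι} {X' : Finset ι'} {κ' : ι' → ℕ} {K : ℕ} {δ H : ℝ} (hX' : Idx X' κ' K δ)
    (h0 : 0 < δ) (h2 : δ ≤ 1 / 2) (hne : X.Nonempty) (hne' : X'.Nonempty) (hH : 1 ≤ δ ^ 8 * H) (hHK : H ≤ K)
    (R : ι → ι' → Prop) (A : Finset ι) (hA : A ⊆ X) (B : Finset ι') (hB : B ⊆ X')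
    (hc : δ * ((X.card : ℝ) * X'.card) ≤ ec R A B) :
    ∃ y ∈ B, ∃ z ∈ B, δ ^ 8 * H ≤ (κ' y : ℝ) - κ' z ∧ (κ' y : ℝ) - κ' z ≤ H ∧
      ∃ A₁ : Finset ι, A₁ ⊆ A ∧ (∀ x ∈ A₁, R x y ∧ R x z) ∧ δ ^ 13 * ((X.card : ℝ) * X'.card) ≤ ec R A₁ B := by
  classical
  obtain ⟨y, hy, z, hz, h1, h3, h4⟩ := cl2 hX' h0 h2 hne hne' hH hHK R A hA B hB hc
  refine ⟨y, hy, z, hz, h1, h3, ?_⟩
  refine ⟨_, ?_, ?_, h4⟩
  · exact Finset.filter_subset _ _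
  · intro x hx
    exact (Finset.mem_filter.1 hx).2

/-- PROOF. `cl2` gives `y, z ∈ B`, `h = κ' y - κ' z`, `δ ^ 8 H ≤ h ≤ H`, and `A₁ = A.filter (R · y ∧ R · z)` with `ec R A₁ B ≥ δ ^ 13 |X| |X'|`, so `|A₁| ≥ δ ^ 13 |X|` (`ec_le`). For `x ∈ A₁` write `u x = κ x φ + r + w`, `|w| ≤ Z`; `v y - v z = h φ' + ω`, `|ω| ≤ 2 Z'`. Subtract the two relations:
`nd (h u x - κ x (v y - v z)) ≤ 2 ε`, i.e. `nd (κ x α + h r + h w) ≤ 2 ε` with `α = h (φ - φ') - ω`, `|α| ≤ 2 H Z + 2 Z ≤ 4 H Z ≤ δ ^ 128`. So `nd (κ x α + h r) ≤ 2 ε + H Z =: e ≤ δ ^ 128` on `A₁`; `vx` for `δ ^ 13` (`Idx.mono`; `e ≤ δ ^ 78`, `1 ≤ δ ^ 117 K`): `q ≤ δ ^ (-39)` and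
`nd (q α) ≤ δ ^ (-104) e / K ≤ δ ^ 24 / K`; `|q α| ≤ δ ^ (-39) δ ^ 128 ≤ 1/2`, so `|α| ≤ |q α| = nd (q α) ≤ δ ^ 24 / K` and `|κ x α| ≤ 2 δ ^ 24`. Hence (one `x ∈ A₁`) `nd (h r) ≤ 2 ε + 2 δ ^ 24 + δ ^ 130 ≤ 1/8`. Let `ρ = h r - round (h r)`. For all `x ∈ A₁`: `nd (κ x α + ρ + h w) ≤ 2 ε` and the real number
`κ x α + ρ + h w` has absolute value at most `1/2`, so it is at most `2 ε` in absolute value (`abs_le_of_nd`). Put `φ₁ = φ - α / h`, `r₁ = r - ρ / h`: `u x - κ x φ₁ - r₁ = (h w + κ x α + ρ) / h`, at most `2 ε / h ≤ 2 ε / (δ ^ 8 H)`; and `φ₁ - φ' = ω / h`. -/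
theorem step {ι ι' : Type} {X : Finset ι} {X' : Finset ι'} {κ : ι → ℕ} {κ' : ι' → ℕ} {K : ℕ}
    {δ ε H Z Z' φ r φ' r' : ℝ} {u : ι → ℝ} {v : ι' → ℝ} {R : ι → ι' → Prop} {A : Finset ι} {B : Finset ι'}
    (h0 : 0 < δ) (h2 : δ ≤ 1 / 2) (hε : 0 < ε) (hX : Idx X κ K δ) (hX' : Idx X' κ' K δ) (hne : X.Nonempty)
    (hne' : X'.Nonempty) (hR : ∀ x ∈ X, ∀ y ∈ X', R x y → nd (κ' y * u x - κ x * v y) ≤ ε) (hA : A ⊆ X) (hB : B ⊆ X')
    (hc : δ * ((X.card : ℝ) * X'.card) ≤ ec R A B) (hK : 1 ≤ δ ^ 117 * K) (hH : 1 ≤ δ ^ 8 * H) (hHK : H ≤ K)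
    (hε1 : ε ≤ δ ^ 130) (hHZ : H * Z ≤ δ ^ 130) (hZ' : 0 ≤ Z') (hZZ : Z' ≤ Z)
    (hu : ∀ x ∈ A, |u x - κ x * φ - r| ≤ Z) (hv : ∀ y ∈ B, |v y - κ' y * φ' - r'| ≤ Z') (hφ : |φ - φ'| ≤ 2 * Z) :
    ∃ A₁ ⊆ A, ∃ φ₁ r₁ : ℝ, δ ^ 13 * ((X.card : ℝ) * X'.card) ≤ ec R A₁ B ∧
      (∀ x ∈ A₁, δ ^ 9 * H * |u x - κ x * φ₁ - r₁| ≤ ε) ∧ δ ^ 9 * H * |φ₁ - φ'| ≤ Z' := by
  have hd1 : δ ≤ 1 := h2.trans (by norm_num)
  have hmono : ∀ n m : ℕ, n ≤ m → δ ^ m ≤ δ ^ n := fun n m hnm => pow_le_pow_of_le_one h0.le hd1 hnm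
  have hX1 : (0 : ℝ) < X.card := by exact_mod_cast hne.card_pos
  have hX1' : (0 : ℝ) < X'.card := by exact_mod_cast hne'.card_pos
  have hZ : 0 ≤ Z := hZ'.trans hZZ
  have hH1 : 1 ≤ H := by
    have h3 : δ ^ 8 ≤ 1 := pow_le_one₀ h0.le hd1
    have hH0 : 0 < H := by
      by_contra hneg
      have h4 : δ ^ 8 * H ≤ 0 := mul_nonpos_of_nonneg_of_nonpos (pow_pos h0 8).le (not_lt.1 hneg)
      linarith
    calc (1 : ℝ) ≤ δ ^ 8 * H := hH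
      _ ≤ 1 * H := mul_le_mul_of_nonneg_right h3 hH0.le
      _ = H := one_mul H
  have hH0 : 0 < H := by linarith
  have hK0 : (0 : ℝ) < K := hH0.trans_le hHK
  obtain ⟨y, hy, z, hz, hh1, hh2, A₁, hA₁, hA₁R, hA₁c⟩ := st_cl2 hX' h0 h2 hne hne' hH hHK R A hA B hB hc
  obtain ⟨h, hh⟩ : ∃ h : ℝ, h = (κ' y : ℝ) - κ' z := ⟨_, rfl⟩
  rw [← hh] at hh1 hh2
  have hhp : 0 < h := lt_of_lt_of_le (by linarith) hh1
  obtain ⟨ω, hω⟩ : ∃ ω : ℝ, ω = (v y - κ' y * φ' - r') - (v z - κ' z * φ' - r') := ⟨_, rfl⟩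
  have hω1 : |ω| ≤ 2 * Z' := by
    rw [hω]
    have h3 := abs_sub (v y - κ' y * φ' - r') (v z - κ' z * φ' - r')
    have h4 := hv y hy
    have h5 := hv z hz
    linarith
  obtain ⟨α, hα⟩ : ∃ α : ℝ, α = h * (φ - φ') - ω := ⟨_, rfl⟩
  have hα1 : |α| ≤ 4 * (H * Z) := by
    rw [hα]
    have h3 := abs_sub (h * (φ - φ')) ω
    rw [abs_mul, abs_of_pos hhp] at h3
    have h4 : h * |φ - φ'| ≤ H * (2 * Z) := mul_le_mul hh2 hφ (abs_nonneg _) hH0.le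
    have h5 : Z ≤ H * Z := le_mul_of_one_le_left hZ hH1
    linarith
  have hδ2 : δ ^ 2 ≤ 1 / 4 := by nlinarith
  have h130 : δ ^ 130 ≤ δ ^ 128 / 4 := by
    have h3 : δ ^ 130 = δ ^ 128 * δ ^ 2 := by ring
    rw [h3]
    have h4 := mul_le_mul_of_nonneg_left hδ2 (pow_pos h0 128).le
    linarith
  have h128 : 0 < δ ^ 128 := pow_pos h0 128
  -- the basic relation
  have hrel : ∀ x ∈ A₁, nd (κ x * α + h * r + h * (u x - κ x * φ - r)) ≤ 2 * ε := by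
    intro x hx
    have h3 := hR x (hA (hA₁ hx)) y (hB hy) (hA₁R x hx).1
    have h4 := hR x (hA (hA₁ hx)) z (hB hz) (hA₁R x hx).2
    have h5 := nd_sub_le (κ' y * u x - κ x * v y) (κ' z * u x - κ x * v z)
    have e1 : κ' y * u x - κ x * v y - (κ' z * u x - κ x * v z) = κ x * α + h * r + h * (u x - κ x * φ - r) := by
      rw [hα, hω, hh]
      ring
    rw [e1] at h5
    linarith
  have hw : ∀ x ∈ A₁, |h * (u x - κ x * φ - r)| ≤ H * Z := by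
    intro x hx
    rw [abs_mul, abs_of_pos hhp]
    exact mul_le_mul hh2 (hu x (hA₁ hx)) (abs_nonneg _) hH0.le
  have hrel2 : ∀ x ∈ A₁, nd (κ x * α + h * r) ≤ 2 * ε + H * Z := by
    intro x hx
    have h3 := nd_le_add_abs (κ x * α + h * r + h * (u x - κ x * φ - r)) (-(h * (u x - κ x * φ - r)))
    rw [abs_neg] at h3
    have e1 : κ x * α + h * r + h * (u x - κ x * φ - r) + -(h * (u x - κ x * φ - r)) = κ x * α + h * r := by ring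
    rw [e1] at h3
    linarith [hrel x hx, hw x hx]
  have hcard : δ ^ 13 * X.card ≤ A₁.card := by
    have h3 : (ec R A₁ B : ℝ) ≤ A₁.card * X'.card := by
      have h4 := (ec_le R A₁ B).trans (Nat.mul_le_mul_left _ (Finset.card_le_card hB))
      exact_mod_cast h4
    have h5 : δ ^ 13 * X.card * X'.card ≤ A₁.card * X'.card := by
      have h6 := hA₁c.trans h3
      linarith
    exact le_of_mul_le_mul_right h5 hX1'
  have hA₁ne : A₁.Nonempty := by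
    rw [← Finset.card_pos]
    have h3 : (0 : ℝ) < A₁.card := lt_of_lt_of_le (mul_pos (pow_pos h0 13) hX1) hcard
    exact_mod_cast h3
  have he0 : 0 ≤ 2 * ε + H * Z := by
    have := mul_nonneg hH0.le hZ
    linarith
  have he1 : 2 * ε + H * Z ≤ 3 * δ ^ 130 := by linarith
  have h13 : δ ^ 13 ≤ 1 / 2 := (hmono 1 13 (by norm_num)).trans (by rw [pow_one]; exact h2)
  obtain ⟨q, hq1, hq2, hq3⟩ := vx (α := α) (β := h * r) (e := 2 * ε + H * Z) (hX.mono (δ' := δ ^ 13) (by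
      have h3 := hmono 1 13 (by norm_num)
      rwa [pow_one] at h3)) (pow_pos h0 13) h13 hne he0 (by
      rw [← pow_mul]
      have h3 := hmono (13 * 6) 128 (by norm_num)
      linarith) (by
      rw [← pow_mul]
      exact hK) A₁ (hA₁.trans hA) hcard hrel2
  rw [← pow_mul] at hq2 hq3
  norm_num at hq2 hq3
  have hqr : (1 : ℝ) ≤ q := by exact_mod_cast hq1
  have hqα : |(q : ℝ) * α| ≤ 1 / 2 := by
    rw [abs_mul, Nat.abs_cast]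
    have h3 : (q : ℝ) * |α| ≤ q * δ ^ 128 := by
      refine mul_le_mul_of_nonneg_left ?_ (Nat.cast_nonneg q)
      linarith
    have h4 : (q : ℝ) * δ ^ 128 = (δ ^ 39 * q) * δ ^ 89 := by ring
    have h5 : (δ ^ 39 * q) * δ ^ 89 ≤ 1 * δ ^ 89 := mul_le_mul_of_nonneg_right hq2 (pow_pos h0 89).le
    have h6 := hmono 1 89 (by norm_num)
    rw [pow_one] at h6
    linarith
  have hα2 : |α| ≤ nd (q * α) := by
    rw [nd_eq_abs hqα, abs_mul, Nat.abs_cast]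
    exact le_mul_of_one_le_left (abs_nonneg α) hqr
  have hKα : (K : ℝ) * |α| ≤ 3 * δ ^ 26 := by
    have h3 : δ ^ 104 * K * |α| ≤ δ ^ 104 * K * nd (q * α) :=
      mul_le_mul_of_nonneg_left hα2 (mul_pos (pow_pos h0 104) hK0).le
    have h4 : δ ^ 104 * (K * |α|) ≤ δ ^ 104 * (3 * δ ^ 26) := by
      have e1 : δ ^ 104 * (3 * δ ^ 26) = 3 * δ ^ 130 := by ring
      rw [e1, ← mul_assoc]
      linarith
    exact le_of_mul_le_mul_left h4 (pow_pos h0 104)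
  have h26 : δ ^ 26 ≤ 1 / 1024 := by
    have h3 := hmono 10 26 (by norm_num)
    have h4 : δ ^ 10 ≤ (1 / 2 : ℝ) ^ 10 := pow_le_pow_left₀ h0.le h2 10
    norm_num at h4
    linarith
  have h130' : δ ^ 130 ≤ 1 / 1024 := (hmono 26 130 (by norm_num)).trans h26
  have hκα : ∀ x ∈ A₁, |κ x * α| ≤ 6 / 1024 := by
    intro x hx
    rw [abs_mul, Nat.abs_cast]
    have h3 : (κ x : ℝ) ≤ 2 * K := by
      have h4 := (hX.hi x (hA (hA₁ hx))).le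
      exact_mod_cast h4
    have h5 : (κ x : ℝ) * |α| ≤ 2 * K * |α| := mul_le_mul_of_nonneg_right h3 (abs_nonneg α)
    linarith
  have hHZ1 : H * Z ≤ 1 / 1024 := hHZ.trans h130'
  have hε2 : ε ≤ 1 / 1024 := hε1.trans h130'
  obtain ⟨x₀, hx₀⟩ := hA₁ne
  have hhr : nd (h * r) ≤ 1 / 8 := by
    have h3 := nd_le_add_abs (κ x₀ * α + h * r) (-(κ x₀ * α))
    have e1 : κ x₀ * α + h * r + -(κ x₀ * α) = h * r := by ring
    rw [e1, abs_neg] at h3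
    have h4 := hrel2 x₀ hx₀
    have h5 := hκα x₀ hx₀
    linarith
  obtain ⟨ρ, hρ⟩ : ∃ ρ : ℝ, ρ = h * r - round (h * r) := ⟨_, rfl⟩
  have hρ1 : |ρ| ≤ 1 / 8 := by
    rw [hρ]
    exact hhr
  have ht : ∀ x ∈ A₁, |κ x * α + ρ + h * (u x - κ x * φ - r)| ≤ 2 * ε := by
    intro x hx
    refine abs_le_of_nd ?_ ?_
    · have h3 := hrel x hx
      have h4 := nd_sub_int (κ x * α + h * r + h * (u x - κ x * φ - r)) (round (h * r))
      have e1 : κ x * α + h * r + h * (u x - κ x * φ - r) - (round (h * r) : ℝ) = κ x * α + ρ + h * (u x - κ x * φ - r) := by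
        rw [hρ]
        ring
      rw [e1] at h4
      rw [h4]
      exact h3
    · have h3 := abs_add_le (κ x * α + ρ) (h * (u x - κ x * φ - r))
      have h4 := abs_add_le (κ x * α) ρ
      have h5 := hκα x hx
      have h6 := hw x hx
      linarith
  have hδH : δ ^ 9 * H ≤ δ * h := by
    have e1 : δ ^ 9 * H = δ * (δ ^ 8 * H) := by ring
    rw [e1]
    exact mul_le_mul_of_nonneg_left hh1 h0.le
  refine ⟨A₁, hA₁, φ - α / h, r - ρ / h, hA₁c, fun x hx => ?_, ?_⟩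
  · have e1 : u x - κ x * (φ - α / h) - (r - ρ / h) = (κ x * α + ρ + h * (u x - κ x * φ - r)) / h := by
      field_simp
      ring
    rw [e1, abs_div, abs_of_pos hhp]
    have h3 := ht x hx
    have h4 : |κ x * α + ρ + h * (u x - κ x * φ - r)| / h ≤ 2 * ε / h := div_le_div_of_nonneg_right h3 hhp.le
    calc δ ^ 9 * H * (|κ x * α + ρ + h * (u x - κ x * φ - r)| / h) ≤ δ * h * (2 * ε / h) :=
          mul_le_mul hδH h4 (div_nonneg (abs_nonneg _) hhp.le) (mul_pos h0 hhp).le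
      _ = 2 * δ * ε := by field_simp
      _ ≤ ε := by nlinarith
  · have e1 : φ - α / h - φ' = ω / h := by
      rw [hα]
      field_simp
      ring
    rw [e1, abs_div, abs_of_pos hhp]
    have h4 : |ω| / h ≤ 2 * Z' / h := div_le_div_of_nonneg_right hω1 hhp.le
    calc δ ^ 9 * H * (|ω| / h) ≤ δ * h * (2 * Z' / h) :=
          mul_le_mul hδH h4 (div_nonneg (abs_nonneg _) hhp.le) (mul_pos h0 hhp).le
      _ = 2 * δ * Z' := by field_simp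
      _ ≤ Z' := by nlinarith

end Pool.Agent.Lib.H84V
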