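import Pool.Agent.Lib.H84V.Defs

/-!
# H84V, chunk V1: two close elements
-/

open Finset

namespace Pool.Agent.Lib.H84V

/-- PROOF. Let `m = ⌊2 / η⌋₊`, blocks of length `m + 1 > 2 / η`: the map `s ↦ (s - a) / (m + 1)` (integer division) maps `S` to `Ico 0 b`, `b = (N - 1) / (m + 1) + 1 ≤ N / (m + 1) + 1 < η N / 2 + 1 ≤ η N ≤ |S|` (`η N ≥ 2`), so
two different elements of `S` have the same image (`Finset.exists_ne_map_eq_of_card_lt_of_maps_to`); their difference is at most `m ≤ 2 / η`. Take the smaller one for `s`. -/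
theorem v1_close {N : ℕ} {a : ℤ} {η : ℝ} (hη : 0 < η) (hη1 : η ≤ 1) (hN : 2 / η ≤ N) (S : Finset ℤ)
    (hS : S ⊆ Finset.Ico a (a + N)) (h : η * N ≤ S.card) :
    ∃ s ∈ S, ∃ t ∈ S, s < t ∧ ((t - s : ℤ) : ℝ) ≤ 2 / η := by
  obtain ⟨m, hm⟩ : ∃ m : ℕ, m = ⌊2 / η⌋₊ := ⟨_, rfl⟩
  have hpos : (0 : ℝ) ≤ 2 / η := by positivity
  have hm1 : (m : ℝ) ≤ 2 / η := by rw [hm]; exact Nat.floor_le hpos
  have hm2 : 2 / η < (m : ℝ) + 1 := by rw [hm]; exact Nat.lt_floor_add_one _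
  have hN2 : (2 : ℝ) ≤ η * N := by
    have := (div_le_iff₀ hη).1 hN
    linarith
  have hNp : (1 : ℝ) ≤ N := by
    have h0 : (0 : ℝ) ≤ N := Nat.cast_nonneg _
    nlinarith
  have hN1 : 1 ≤ N := by exact_mod_cast hNp
  have hM : (0 : ℤ) < (m : ℤ) + 1 := by positivity
  obtain ⟨b, hb⟩ : ∃ b : ℤ, b = ((N : ℤ) - 1) / ((m : ℤ) + 1) + 1 := ⟨_, rfl⟩
  have hb0 : 0 ≤ b := by
    have : 0 ≤ ((N : ℤ) - 1) / ((m : ℤ) + 1) := Int.ediv_nonneg (by omega) hM.le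
    omega
  have hMR : (0 : ℝ) < (m : ℝ) + 1 := by positivity
  have hbR : (b : ℝ) < η * N := by
    have h1 : ((((N : ℤ) - 1) / ((m : ℤ) + 1) : ℤ) : ℝ) * ((m : ℝ) + 1) ≤ (N : ℝ) - 1 := by
      have h2 : (((N : ℤ) - 1) / ((m : ℤ) + 1)) * ((m : ℤ) + 1) ≤ (N : ℤ) - 1 := Int.ediv_mul_le _ (ne_of_gt hM)
      have h3 : (((((N : ℤ) - 1) / ((m : ℤ) + 1)) * ((m : ℤ) + 1) : ℤ) : ℝ) ≤ (((N : ℤ) - 1 : ℤ) : ℝ) :=
        Int.cast_le.2 h2
      push_cast at h3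
      exact h3
    have h4 : ((((N : ℤ) - 1) / ((m : ℤ) + 1) : ℤ) : ℝ) < η * N / 2 := by
      by_contra hcon
      push Not at hcon
      have h5 : η * N / 2 * ((m : ℝ) + 1) ≤ (N : ℝ) - 1 := (mul_le_mul_of_nonneg_right hcon hMR.le).trans h1
      have h6 : 2 < ((m : ℝ) + 1) * η := (div_lt_iff₀ hη).1 hm2
      nlinarith
    have h7 : (b : ℝ) = ((((N : ℤ) - 1) / ((m : ℤ) + 1) : ℤ) : ℝ) + 1 := by rw [hb]; push_cast; ring
    rw [h7]
    linarith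
  have hcard : (Finset.Ico (0 : ℤ) b).card < S.card := by
    have h1 : (Finset.Ico (0 : ℤ) b).card = b.toNat := by simp
    rw [h1]
    have h2 : ((b.toNat : ℕ) : ℝ) < (S.card : ℝ) := by
      have h3 : ((b.toNat : ℕ) : ℝ) = (b : ℝ) := by
        have : ((b.toNat : ℕ) : ℤ) = b := Int.toNat_of_nonneg hb0
        exact_mod_cast this
      rw [h3]
      exact hbR.trans_le h
    exact_mod_cast h2
  have hmaps : ∀ s ∈ S, (s - a) / ((m : ℤ) + 1) ∈ Finset.Ico (0 : ℤ) b := by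
    intro s hs
    have hs' := Finset.mem_Ico.1 (hS hs)
    rw [Finset.mem_Ico]
    refine ⟨Int.ediv_nonneg (by omega) hM.le, ?_⟩
    have : (s - a) / ((m : ℤ) + 1) ≤ ((N : ℤ) - 1) / ((m : ℤ) + 1) := Int.ediv_le_ediv hM (by omega)
    omega
  obtain ⟨x, hx, y, hy, hne, hxy⟩ := Finset.exists_ne_map_eq_of_card_lt_of_maps_to hcard hmaps
  have key : ∀ s t : ℤ, (s - a) / ((m : ℤ) + 1) = (t - a) / ((m : ℤ) + 1) → s < t → ((t - s : ℤ) : ℝ) ≤ 2 / η := by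
    intro s t hst _
    have e1 := Int.emod_add_mul_ediv (s - a) ((m : ℤ) + 1)
    have e2 := Int.emod_add_mul_ediv (t - a) ((m : ℤ) + 1)
    have b1 := Int.emod_nonneg (s - a) (ne_of_gt hM)
    have b2 := Int.emod_lt_of_pos (t - a) hM
    rw [hst] at e1
    have h1 : t - s ≤ (m : ℤ) := by linarith
    have h2 : ((t - s : ℤ) : ℝ) ≤ ((m : ℤ) : ℝ) := Int.cast_le.2 h1
    refine h2.trans ?_
    rw [Int.cast_natCast]
    exact hm1
  rcases lt_or_gt_of_ne hne with hlt | hgt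
  · exact ⟨x, hx, y, hy, hlt, key x y hxy hlt⟩
  · exact ⟨y, hy, x, hx, hgt, key y x hxy.symm hgt⟩

end Pool.Agent.Lib.H84V
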