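import Pool.Agent.Lib.H84V.Defs

/-!
# H84V, chunk V2: counting in an arithmetic progression
-/

open Finset

namespace Pool.Agent.Lib.H84V

theorem v2_card_int (S : Finset ℤ) (x y : ℝ) (hxy : x ≤ y) (h : ∀ j ∈ S, x ≤ (j : ℝ) ∧ (j : ℝ) ≤ y) :
    (S.card : ℝ) ≤ y - x + 1 := by
  have hsub : S ⊆ Finset.Icc ⌈x⌉ ⌊y⌋ := by
    intro j hj
    rw [Finset.mem_Icc]
    exact ⟨Int.ceil_le.2 (h j hj).1, Int.le_floor.2 (h j hj).2⟩
  have h1 := Finset.card_le_card hsub
  rw [Int.card_Icc] at h1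
  have h2 : (S.card : ℝ) ≤ (((⌊y⌋ + 1 - ⌈x⌉).toNat : ℕ) : ℝ) := by exact_mod_cast h1
  refine h2.trans ?_
  have h3 : (((⌊y⌋ + 1 - ⌈x⌉).toNat : ℕ) : ℝ) = ((((⌊y⌋ + 1 - ⌈x⌉).toNat : ℕ) : ℤ) : ℝ) := by push_cast; rfl
  rw [h3, Int.toNat_eq_max, Int.cast_max]
  apply max_le
  · push_cast
    have := Int.floor_le y
    have := Int.le_ceil x
    linarith
  · push_cast
    linarith

theorem v2_card_nat (S : Finset ℕ) (x y : ℝ) (hxy : x ≤ y) (h : ∀ j ∈ S, x ≤ (j : ℝ) ∧ (j : ℝ) ≤ y) :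
    (S.card : ℝ) ≤ y - x + 1 := by
  have h1 := v2_card_int (S.map Nat.castEmbedding) x y hxy (by
    intro j hj
    rw [Finset.mem_map] at hj
    obtain ⟨i, hi, rfl⟩ := hj
    have := h i hi
    simpa using this)
  rwa [Finset.card_map] at h1

/-- PROOF. For `j` in the set let `m_j = round (γ + j θ)`, `|γ + j θ - m_j| ≤ e` and `≤ 1/2`. All `m_j` are in a closed interval of length `(L - 1) |θ| + 1` (the numbers `γ + j θ`, `j < L`, are between `γ` and `γ + (L - 1) θ`), so there are at most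
`L |θ| + 2` values of `m`. For each integer `m` the `j` with `|γ + j θ - m| ≤ e` are in a closed interval of length `2 e / |θ|`: at most `2 e / |θ| + 1` of them. `Finset.card_le_mul_card_image` (or `card_eq_sum_card_fiberwise`). -/
theorem v2_count (L : ℕ) (hL : 1 ≤ L) (γ θ e : ℝ) (hθ : θ ≠ 0) (he : 0 ≤ e) :
    (((Finset.range L).filter fun j : ℕ => nd (γ + j * θ) ≤ e).card : ℝ) ≤ (L * |θ| + 2) * (2 * e / |θ| + 1) := by
  have hθ0 : 0 < |θ| := abs_pos.2 hθ
  have hL1 : (1 : ℝ) ≤ L := by exact_mod_cast hL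
  obtain ⟨F, hF⟩ : ∃ F : Finset ℕ, F = (Finset.range L).filter fun j : ℕ => nd (γ + j * θ) ≤ e := ⟨_, rfl⟩
  rw [← hF]
  have hmem : ∀ j ∈ F, j < L ∧ nd (γ + j * θ) ≤ e := by
    intro j hj
    rw [hF, Finset.mem_filter, Finset.mem_range] at hj
    exact hj
  have hq : 0 ≤ 2 * e / |θ| + 1 := by positivity
  -- the fibres
  have hfib : ∀ m ∈ F.image (fun j : ℕ => round (γ + j * θ)),
      (F.filter fun j : ℕ => round (γ + j * θ) = m).card ≤ ⌊2 * e / |θ| + 1⌋₊ := by
    intro m _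
    apply Nat.le_floor
    have h1 := v2_card_nat (F.filter fun j : ℕ => round (γ + j * θ) = m) (((m : ℝ) - γ) / θ - e / |θ|)
      (((m : ℝ) - γ) / θ + e / |θ|) (by
        have : 0 ≤ e / |θ| := by positivity
        linarith) (by
        intro j hj
        rw [Finset.mem_filter] at hj
        have h2 := (hmem j hj.1).2
        unfold nd at h2
        rw [hj.2] at h2
        have h3 : γ + (j : ℝ) * θ - m = ((j : ℝ) - ((m : ℝ) - γ) / θ) * θ := by
          field_simp
          ring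
        rw [h3, abs_mul] at h2
        have h4 : |(j : ℝ) - ((m : ℝ) - γ) / θ| ≤ e / |θ| := (le_div_iff₀ hθ0).2 h2
        have h5 := abs_le.1 h4
        constructor
        · linarith [h5.1]
        · linarith [h5.2])
    refine h1.trans (le_of_eq ?_)
    ring
  have h1 := Finset.card_le_mul_card_image F ⌊2 * e / |θ| + 1⌋₊ hfib
  have h2 : ((F.image (fun j : ℕ => round (γ + j * θ))).card : ℝ) ≤ L * |θ| + 2 := by
    have h3 := v2_card_int (F.image (fun j : ℕ => round (γ + j * θ))) (min γ (γ + (L - 1) * θ) - 1 / 2)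
      (max γ (γ + (L - 1) * θ) + 1 / 2) (by
        have := min_le_max (a := γ) (b := γ + (L - 1) * θ)
        linarith) (by
        intro m hm
        rw [Finset.mem_image] at hm
        obtain ⟨j, hj, rfl⟩ := hm
        have hjL := (hmem j hj).1
        have h4 := abs_le.1 (abs_sub_round (γ + (j : ℝ) * θ))
        have hj0 : (0 : ℝ) ≤ j := Nat.cast_nonneg _
        have hj1 : (j : ℝ) ≤ L - 1 := by
          have : (j : ℝ) + 1 ≤ L := by exact_mod_cast hjL
          linarith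
        rcases le_total 0 θ with hθp | hθn
        · have e1 : min γ (γ + (L - 1) * θ) ≤ γ := min_le_left _ _
          have e2 : γ + (L - 1) * θ ≤ max γ (γ + (L - 1) * θ) := le_max_right _ _
          have e3 : 0 ≤ (j : ℝ) * θ := mul_nonneg hj0 hθp
          have e4 : (j : ℝ) * θ ≤ (L - 1) * θ := mul_le_mul_of_nonneg_right hj1 hθp
          constructor
          · linarith [h4.2]
          · linarith [h4.1]
        · have e1 : min γ (γ + (L - 1) * θ) ≤ γ + (L - 1) * θ := min_le_right _ _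
          have e2 : γ ≤ max γ (γ + (L - 1) * θ) := le_max_left _ _
          have e3 : (j : ℝ) * θ ≤ 0 := mul_nonpos_of_nonneg_of_nonpos hj0 hθn
          have e4 : (L - 1) * θ ≤ (j : ℝ) * θ := mul_le_mul_of_nonpos_right hj1 hθn
          constructor
          · linarith [h4.2]
          · linarith [h4.1])
    refine h3.trans ?_
    have h5 : max γ (γ + (L - 1) * θ) - min γ (γ + (L - 1) * θ) = (L - 1) * |θ| := by
      rw [max_sub_min_eq_abs]
      have : γ + (L - 1) * θ - γ = (L - 1) * θ := by ring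
      rw [this, abs_mul, abs_of_nonneg (by linarith : (0 : ℝ) ≤ L - 1)]
    have h6 : max γ (γ + (L - 1) * θ) + 1 / 2 - (min γ (γ + (L - 1) * θ) - 1 / 2) + 1 = (L - 1) * |θ| + 2 := by
      rw [← h5]
      ring
    rw [h6]
    nlinarith
  calc (F.card : ℝ) ≤ ((⌊2 * e / |θ| + 1⌋₊ * (F.image (fun j : ℕ => round (γ + j * θ))).card : ℕ) : ℝ) := by
        exact_mod_cast h1
    _ = (⌊2 * e / |θ| + 1⌋₊ : ℝ) * ((F.image (fun j : ℕ => round (γ + j * θ))).card : ℝ) := by push_cast; ring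
    _ ≤ (2 * e / |θ| + 1) * (L * |θ| + 2) := by
        apply mul_le_mul (Nat.floor_le hq) h2 (Nat.cast_nonneg _) hq
    _ = (L * |θ| + 2) * (2 * e / |θ| + 1) := by ring

end Pool.Agent.Lib.H84V
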