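import Pool.Agent.Lib.H84V.V1
import Pool.Agent.Lib.H84V.V2

/-!
# H84V, chunk V3: Vinogradov lemma
-/

open Finset

namespace Pool.Agent.Lib.H84V

/-- Residue classes: the counting step. -/
theorem v3_card {N : ℕ} {a : ℤ} {α β ε : ℝ} (hε : 0 ≤ ε) (hN : 1 ≤ N) (S : Finset ℤ) (hS : S ⊆ Finset.Ico a (a + N))
    (hw : ∀ w ∈ S, nd (w * α + β) ≤ ε) (q : ℕ) (hq : 1 ≤ q) (θ : ℝ) (m : ℤ) (hθ : (q : ℝ) * α = θ + m) (hθ0 : θ ≠ 0) :
    (S.card : ℝ) ≤ ((((N - 1) / q + 1 : ℕ) : ℝ) * |θ| + 2) * (2 * ε / |θ| + 1) * q := by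
  have habs : 0 < |θ| := abs_pos.2 hθ0
  have hB : 0 ≤ ((((N - 1) / q + 1 : ℕ) : ℝ) * |θ| + 2) * (2 * ε / |θ| + 1) := by positivity
  have hz : ∀ w ∈ S, (((w - a).toNat : ℕ) : ℤ) = w - a ∧ (w - a).toNat < N := by
    intro w hwS
    have h1 := Finset.mem_Ico.1 (hS hwS)
    constructor
    · exact Int.toNat_of_nonneg (by omega)
    · omega
  have hmaps : ∀ w ∈ S, (w - a).toNat % q ∈ Finset.range q := by
    intro w _
    rw [Finset.mem_range]
    exact Nat.mod_lt _ hq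
  have hfib : ∀ ρ ∈ Finset.range q, (S.filter fun w : ℤ => (w - a).toNat % q = ρ).card ≤
      ⌊((((N - 1) / q + 1 : ℕ) : ℝ) * |θ| + 2) * (2 * ε / |θ| + 1)⌋₊ := by
    intro ρ _
    apply Nat.le_floor
    refine le_trans ?_ (v2_count ((N - 1) / q + 1) (Nat.le_add_left 1 _) (((a : ℝ) + ρ) * α + β) θ ε hθ0 hε)
    have hle : (S.filter fun w : ℤ => (w - a).toNat % q = ρ).card ≤
        ((Finset.range ((N - 1) / q + 1)).filter fun j : ℕ => nd (((a : ℝ) + ρ) * α + β + j * θ) ≤ ε).card := by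
      refine Finset.card_le_card_of_injOn (fun w : ℤ => (w - a).toNat / q) ?_ ?_
      · intro w hwF
        rw [Finset.mem_coe, Finset.mem_filter] at hwF
        obtain ⟨hwS, hρ⟩ := hwF
        obtain ⟨hz1, hz2⟩ := hz w hwS
        rw [Finset.mem_coe, Finset.mem_filter, Finset.mem_range]
        refine ⟨?_, ?_⟩
        · have : (w - a).toNat / q ≤ (N - 1) / q := Nat.div_le_div_right (by omega)
          exact Nat.lt_succ_of_le this
        · have h1 := hw w hwS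
          have h2 : (w - a).toNat = ρ + q * ((w - a).toNat / q) := by
            have := Nat.mod_add_div (w - a).toNat q
            rw [hρ] at this
            exact this.symm
          show nd (((a : ℝ) + ρ) * α + β + (((w - a).toNat / q : ℕ) : ℝ) * θ) ≤ ε
          obtain ⟨j, hj⟩ : ∃ j : ℕ, j = (w - a).toNat / q := ⟨_, rfl⟩
          rw [← hj] at h2 ⊢
          have h3 : w = a + ρ + q * (j : ℤ) := by
            have h4 : (((w - a).toNat : ℕ) : ℤ) = ρ + q * (j : ℤ) := by exact_mod_cast h2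
            rw [hz1] at h4
            linarith
          have h5 : (w : ℝ) = a + ρ + q * (j : ℝ) := by
            have := congrArg (fun x : ℤ => (x : ℝ)) h3
            push_cast at this
            exact this
          have h7 : (q : ℝ) * (j : ℝ) * α = (j : ℝ) * (θ + m) := by
            rw [← hθ]
            ring
          have h8 : (w : ℝ) * α = ((a : ℝ) + ρ) * α + (q : ℝ) * (j : ℝ) * α := by
            rw [h5]
            ring
          have h6 : (w : ℝ) * α + β = (((a : ℝ) + ρ) * α + β + (j : ℝ) * θ) + (((j : ℤ) * m : ℤ) : ℝ) := by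
            rw [h8, h7]
            push_cast
            ring
          rw [h6, nd_add_int] at h1
          exact h1
      · intro w hwF w' hwF' hww
        rw [Finset.mem_coe, Finset.mem_filter] at hwF hwF'
        obtain ⟨hz1, _⟩ := hz w hwF.1
        obtain ⟨hz1', _⟩ := hz w' hwF'.1
        have h1 := Nat.mod_add_div (w - a).toNat q
        have h2 := Nat.mod_add_div (w' - a).toNat q
        have hww' : (w - a).toNat / q = (w' - a).toNat / q := hww
        rw [hwF.2, hww'] at h1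
        rw [hwF'.2] at h2
        have h3 : (w - a).toNat = (w' - a).toNat := h1.symm.trans h2
        have h4 : w - a = w' - a := by rw [← hz1, ← hz1', h3]
        linarith
    exact_mod_cast hle
  have h1 := Finset.card_le_mul_card_image_of_maps_to hmaps _ hfib
  rw [Finset.card_range] at h1
  calc (S.card : ℝ) ≤ ((⌊((((N - 1) / q + 1 : ℕ) : ℝ) * |θ| + 2) * (2 * ε / |θ| + 1)⌋₊ * q : ℕ) : ℝ) := by
        exact_mod_cast h1
    _ = (⌊((((N - 1) / q + 1 : ℕ) : ℝ) * |θ| + 2) * (2 * ε / |θ| + 1)⌋₊ : ℝ) * q := by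
        rw [Nat.cast_mul]
    _ ≤ ((((N - 1) / q + 1 : ℕ) : ℝ) * |θ| + 2) * (2 * ε / |θ| + 1) * q :=
        mul_le_mul_of_nonneg_right (Nat.floor_le hB) (Nat.cast_nonneg _)

/-- PROOF. Let `S` be the set. `v1_close` gives `s < t` in `S`, `q = t - s ≤ 2 / η`; `nd (q α) ≤ 2 ε` (`nd_sub_le`, `q α = (t α + β) - (s α + β)`). Let `θ = q α - round (q α)`, `|θ| = nd (q α)`. If `θ = 0` we are done. Let `L = (N - 1) / q + 1 ≤ N / q + 1`. Every `w` in `S` is `a + ρ + j q`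
with `0 ≤ ρ < q`, `0 ≤ j < L` (division with remainder), and `nd (w α + β) = nd (((a + ρ) α + β) + j θ)` (`nd_add_int`). By `v2_count`: `η N ≤ |S| ≤ q (L |θ| + 2) (2 ε / |θ| + 1) ≤ ((N + q) |θ| + 2 q) (2 ε / |θ| + 1) ≤ 4 ε (N + q) + 2 q + 4 q ε / |θ|`
(`|θ| ≤ 2 ε`); `4 ε N ≤ η N / 4`, `4 ε q + 2 q ≤ 1/2 + 4 / η ≤ 6 / η ≤ η N / 4`, so `η N / 2 ≤ 4 q ε / |θ|`, `|θ| ≤ 8 q ε / (η N) ≤ 16 ε / (η ^ 2 N)`. -/
theorem vino {N : ℕ} {a : ℤ} {α β ε η : ℝ} (hη : 0 < η) (hη1 : η ≤ 1) (hε : 0 ≤ ε) (hε1 : ε ≤ η / 16)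
    (hN : 24 / η ^ 2 ≤ N) (S : Finset ℤ) (hS : S ⊆ Finset.Ico a (a + N)) (h : η * N ≤ S.card)
    (hw : ∀ w ∈ S, nd (w * α + β) ≤ ε) :
    ∃ q : ℕ, 1 ≤ q ∧ (q : ℝ) ≤ 2 / η ∧ nd (q * α) ≤ 16 * ε / (η ^ 2 * N) := by
  have hη2 : 0 < η ^ 2 := by positivity
  have hN24 : 24 ≤ (N : ℝ) * η ^ 2 := (div_le_iff₀ hη2).1 hN
  have hN0 : (0 : ℝ) ≤ N := Nat.cast_nonneg _
  have hNη : 24 ≤ η * ((N : ℝ) * η) := by linarith [show (N : ℝ) * η ^ 2 = η * ((N : ℝ) * η) by ring]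
  have hNη0 : 0 ≤ (N : ℝ) * η := by positivity
  have hNη1 : 24 ≤ (N : ℝ) * η := by nlinarith
  have hN24' : (24 : ℝ) ≤ N := by nlinarith
  have hNpos : (0 : ℝ) < N := by linarith
  have hN1 : 1 ≤ N := by
    have : (1 : ℝ) ≤ N := by linarith
    exact_mod_cast this
  have hN2 : 2 / η ≤ N := by
    rw [div_le_iff₀ hη]
    linarith
  obtain ⟨s, hs, t, ht, hst, hts⟩ := v1_close hη hη1 hN2 S hS h
  obtain ⟨q, hq⟩ : ∃ q : ℕ, (q : ℤ) = t - s := ⟨(t - s).toNat, Int.toNat_of_nonneg (by omega)⟩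
  have hq1 : 1 ≤ q := by omega
  have hqR : (q : ℝ) = (t : ℝ) - s := by
    have := congrArg (fun x : ℤ => (x : ℝ)) hq
    push_cast at this
    exact this
  have hq2 : (q : ℝ) ≤ 2 / η := by
    rw [hqR]
    push_cast at hts
    exact hts
  have hq1R : (1 : ℝ) ≤ q := by exact_mod_cast hq1
  have hqη : (q : ℝ) * η ≤ 2 := (le_div_iff₀ hη).1 hq2
  refine ⟨q, hq1, hq2, ?_⟩
  have hnd : nd (q * α) ≤ 2 * ε := by
    have h1 : (q : ℝ) * α = (t * α + β) - (s * α + β) := by rw [hqR]; ring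
    rw [h1]
    have h2 := nd_sub_le (t * α + β) (s * α + β)
    have h3 := hw t ht
    have h4 := hw s hs
    linarith
  obtain ⟨θ, hθ⟩ : ∃ θ : ℝ, θ = q * α - round (q * α) := ⟨_, rfl⟩
  have hndθ : nd (q * α) = |θ| := by rw [hθ]; rfl
  rw [hndθ]
  rw [hndθ] at hnd
  by_cases hθ0 : θ = 0
  · rw [hθ0, abs_zero]
    positivity
  have habs : 0 < |θ| := abs_pos.2 hθ0
  have hcard := v3_card hε hN1 S hS hw q hq1 θ (round (q * α)) (by rw [hθ]; ring) hθ0
  have hL : (((N - 1) / q + 1 : ℕ) : ℝ) * q ≤ N + q := by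
    have h1 : ((N - 1) / q + 1) * q ≤ N + q := by
      have h2 : (N - 1) / q * q ≤ N - 1 := Nat.div_mul_le_self _ _
      have h3 : ((N - 1) / q + 1) * q = (N - 1) / q * q + q := by ring
      omega
    exact_mod_cast h1
  obtain ⟨L, hLdef⟩ : ∃ L : ℝ, L = (((N - 1) / q + 1 : ℕ) : ℝ) := ⟨_, rfl⟩
  rw [← hLdef] at hcard hL
  have hL0 : 0 ≤ L := by rw [hLdef]; positivity
  -- `x = ε / |θ|`
  obtain ⟨x, hx⟩ : ∃ x : ℝ, x = ε / |θ| := ⟨_, rfl⟩
  have hx0 : 0 ≤ x := by rw [hx]; positivity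
  have hxθ : x * |θ| = ε := by rw [hx]; field_simp
  have h2x : 2 * ε / |θ| = 2 * x := by rw [hx]; ring
  rw [h2x] at hcard
  have hstep : η * N ≤ 4 * ε * (N + q) + 2 * q + 4 * q * x := by
    have h1 : (L * |θ| + 2) * (2 * x + 1) * q = (L * q * |θ| + 2 * q) * (2 * x + 1) := by ring
    have h2 : (L * q * |θ| + 2 * q) * (2 * x + 1) ≤ ((N + q) * |θ| + 2 * q) * (2 * x + 1) := by
      apply mul_le_mul_of_nonneg_right _ (by positivity)
      have := mul_le_mul_of_nonneg_right hL habs.le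
      linarith
    have h3 : ((N + q) * |θ| + 2 * q) * (2 * x + 1) = 2 * (N + q) * (x * |θ|) + (N + q) * |θ| + 4 * q * x + 2 * q := by
      ring
    have h4 : ((N : ℝ) + q) * |θ| ≤ (N + q) * (2 * ε) := mul_le_mul_of_nonneg_left hnd (by positivity)
    rw [hxθ] at h3
    linarith
  have h4 : 4 * ε * N ≤ η * N / 4 := by
    have := mul_le_mul_of_nonneg_right hε1 hN0
    linarith
  have h5 : 4 * ε * q ≤ 1 / 2 := by
    have := mul_le_mul_of_nonneg_right hε1 (by linarith : (0 : ℝ) ≤ q)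
    linarith
  have h6 : 1 / 2 + 2 * (q : ℝ) ≤ η * N / 4 := by
    -- multiply by `η`
    have h7 : (1 / 2 + 2 * (q : ℝ)) * η ≤ (η * N / 4) * η := by nlinarith
    exact le_of_mul_le_mul_right h7 hη
  have h8 : η * N / 2 ≤ 4 * q * x := by linarith
  -- now multiply by `|θ|`
  have h9 : η * N / 2 * |θ| ≤ 4 * q * ε := by
    calc η * N / 2 * |θ| ≤ 4 * q * x * |θ| := mul_le_mul_of_nonneg_right h8 habs.le
      _ = 4 * q * (x * |θ|) := by ring
      _ = 4 * q * ε := by rw [hxθ]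
  rw [le_div_iff₀ (by positivity)]
  have h10 : η * (η * N / 2 * |θ|) ≤ η * (4 * q * ε) := mul_le_mul_of_nonneg_left h9 hη.le
  have h11 : (q : ℝ) * η * (4 * ε) ≤ 2 * (4 * ε) := mul_le_mul_of_nonneg_right hqη (by positivity)
  nlinarith

end Pool.Agent.Lib.H84V
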