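import Pool.Agent.Lib.H84V.V3
import Pool.Agent.Lib.H18V.Defs

/-!
# H84V, chunk VLA: the Vinogradov lemma in the form of H18V
-/

open Finset

namespace Pool.Agent.Lib.H84V

open Pool.Agent.Lib.H18V (nn)

/-- PROOF. `vino` with `η = 1 / D`, `β = -be`, `N = P`. -/
theorem VL (D : ℝ) (hD : 1 ≤ D) (P : ℕ) (hP : 24 * D ^ 2 ≤ P) (A : ℤ) (S : Finset ℤ)
    (hS : S ⊆ Ico A (A + P)) (hcard : (P : ℝ) / D ≤ S.card) (th be ε : ℝ) (hε0 : 0 ≤ ε)
    (hε : 16 * D * ε ≤ 1) (h : ∀ w ∈ S, nn (w * th - be) ≤ ε) :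
    ∃ q : ℕ, 1 ≤ q ∧ (q : ℝ) ≤ 2 * D ∧ nn (q * th) ≤ 64 * D ^ 2 * ε / P := by
  have hD0 : 0 < D := by linarith
  obtain ⟨q, h1, h2, h3⟩ := vino (N := P) (a := A) (α := th) (β := -be) (ε := ε) (η := 1 / D) (by positivity)
    (by rw [div_le_one hD0]; exact hD) hε0
    (by rw [div_div, le_div_iff₀ (by positivity)]; linarith)
    (by
      have e : 24 / (1 / D) ^ 2 = 24 * D ^ 2 := by field_simp
      rw [e]; exact hP) S hS
    (by
      have e : 1 / D * (P : ℝ) = P / D := by ring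
      rw [e]; exact hcard)
    (fun w hw => h w hw)
  refine ⟨q, h1, ?_, ?_⟩
  · have e : 2 / (1 / D) = 2 * D := by field_simp
    rw [e] at h2
    exact h2
  · have hP0 : (0 : ℝ) < P := lt_of_lt_of_le (by positivity) hP
    have e : 16 * ε / ((1 / D) ^ 2 * P) = 16 * D ^ 2 * ε / P := by field_simp
    rw [e] at h3
    refine h3.trans ?_
    apply div_le_div_of_nonneg_right _ hP0.le
    have : 0 ≤ D ^ 2 * ε := by positivity
    nlinarith

end Pool.Agent.Lib.H84V
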