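import Pool.Agent.Lib.H84V.V3

/-!
# H84V, chunk VX: Vinogradov lemma on an index set
-/

open Finset

namespace Pool.Agent.Lib.H84V

/-- PROOF. `S = A.image κ` (as integers) is in `[K, K + K)` and `|A| ≤ ∑_{k ∈ κ(A)} |fibre| ≤ |κ(A)| |X| / (δ K)` (`Idx.fib`), so `|κ(A)| ≥ δ ^ 2 K` (`X` is nonempty). `vino` with `η = δ ^ 2`, `N = K`: `e ≤ δ ^ 6 ≤ δ ^ 2 / 16`, `24 / δ ^ 4 ≤ K` (`32 δ ^ (-4) ≤ δ ^ (-9)`), `q ≤ 2 / δ ^ 2 ≤ δ ^ (-3)`,
`nd (q α) ≤ 16 e / (δ ^ 4 K)`, `δ ^ 8 ≤ δ ^ 4 / 16`. -/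
theorem vx {ι : Type} {X : Finset ι} {κ : ι → ℕ} {K : ℕ} {δ α β e : ℝ} (hX : Idx X κ K δ) (h0 : 0 < δ) (h2 : δ ≤ 1 / 2)
    (hne : X.Nonempty) (he : 0 ≤ e) (he1 : e ≤ δ ^ 6) (hK : 1 ≤ δ ^ 9 * K) (A : Finset ι) (hA : A ⊆ X)
    (hc : δ * X.card ≤ A.card) (h : ∀ x ∈ A, nd (κ x * α + β) ≤ e) :
    ∃ q : ℕ, 1 ≤ q ∧ δ ^ 3 * q ≤ 1 ∧ δ ^ 8 * K * nd (q * α) ≤ e := by
  classical
  have hXc : (0 : ℝ) < X.card := by exact_mod_cast hne.card_pos
  have hKpos : (0 : ℝ) < K := by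
    by_contra hneg
    have h1 : (K : ℝ) = 0 := le_antisymm (not_lt.1 hneg) (Nat.cast_nonneg K)
    rw [h1, mul_zero] at hK
    linarith
  have hd2 : 0 < δ ^ 2 := by positivity
  have hd4 : δ ^ 4 ≤ 1 / 16 := by
    have := pow_le_pow_left₀ h0.le h2 4
    norm_num at this ⊢
    linarith
  have hd5 : δ ^ 5 ≤ 1 / 32 := by
    have := pow_le_pow_left₀ h0.le h2 5
    norm_num at this ⊢
    linarith
  have hcard : δ * K * A.card ≤ (A.image κ).card * X.card := by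
    have h1 : A.card = ∑ k ∈ A.image κ, (A.filter fun x => κ x = k).card :=
      Finset.card_eq_sum_card_image κ A
    rw [h1]
    push_cast
    rw [Finset.mul_sum]
    have h3 : ∀ k ∈ A.image κ, δ * K * ((A.filter fun x => κ x = k).card : ℝ) ≤ X.card := by
      intro k _
      have h4 := hX.fib k
      have h5 : ((A.filter fun x => κ x = k).card : ℝ) ≤ ((X.filter fun x => κ x = k).card : ℝ) := by
        exact_mod_cast Finset.card_le_card (Finset.filter_subset_filter _ hA)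
      have h6 : δ * K * ((A.filter fun x => κ x = k).card : ℝ) ≤
          δ * K * ((X.filter fun x => κ x = k).card : ℝ) :=
        mul_le_mul_of_nonneg_left h5 (by positivity)
      linarith
    have h7 := Finset.sum_le_sum h3
    rw [Finset.sum_const, nsmul_eq_mul] at h7
    exact h7
  have himg : δ ^ 2 * K ≤ (A.image κ).card := by
    have h1 : δ * K * (δ * X.card) ≤ δ * K * A.card := mul_le_mul_of_nonneg_left hc (by positivity)
    have h3 : δ ^ 2 * K * X.card ≤ (A.image κ).card * X.card := by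
      refine le_trans (le_of_eq ?_) (h1.trans hcard)
      ring
    exact le_of_mul_le_mul_right h3 hXc
  have hSc : (A.image fun x => (κ x : ℤ)).card = (A.image κ).card := by
    have h1 : (A.image fun x => (κ x : ℤ)) = (A.image κ).image (fun n : ℕ => (n : ℤ)) := by
      rw [Finset.image_image]
      rfl
    rw [h1, Finset.card_image_of_injective _ Nat.cast_injective]
  obtain ⟨q, hq1, hq2, hq3⟩ := vino (N := K) (a := (K : ℤ)) (α := α) (β := β) (ε := e) (η := δ ^ 2) hd2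
    (by nlinarith [h0, h2]) he
    (by
      refine he1.trans ?_
      have : δ ^ 6 = δ ^ 2 * δ ^ 4 := by ring
      rw [this]
      nlinarith [hd2, hd4])
    (by
      rw [div_le_iff₀ (by positivity)]
      have h1 : δ ^ 9 * K = δ ^ 5 * ((K : ℝ) * (δ ^ 2) ^ 2) := by ring
      rw [h1] at hK
      have h3 : 0 ≤ (K : ℝ) * (δ ^ 2) ^ 2 := by positivity
      have h4 : δ ^ 5 * ((K : ℝ) * (δ ^ 2) ^ 2) ≤ 1 / 32 * ((K : ℝ) * (δ ^ 2) ^ 2) :=
        mul_le_mul_of_nonneg_right hd5 h3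
      linarith)
    (A.image fun x => (κ x : ℤ))
    (by
      intro z hz
      obtain ⟨x, hx, rfl⟩ := Finset.mem_image.1 hz
      have h1 := hX.lo x (hA hx)
      have h3 := hX.hi x (hA hx)
      rw [Finset.mem_Ico]
      omega)
    (by rw [hSc]; exact himg)
    (by
      intro w hw
      obtain ⟨x, hx, rfl⟩ := Finset.mem_image.1 hw
      have h1 := h x hx
      rw [Int.cast_natCast]
      exact h1)
  refine ⟨q, hq1, ?_, ?_⟩
  · rw [le_div_iff₀ hd2] at hq2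
    have h1 : δ ^ 3 * q = δ * (q * δ ^ 2) := by ring
    rw [h1]
    have h3 : δ * (q * δ ^ 2) ≤ δ * 2 := mul_le_mul_of_nonneg_left hq2 h0.le
    linarith
  · rw [le_div_iff₀ (by positivity)] at hq3
    have h1 : δ ^ 8 * K * nd (q * α) = δ ^ 4 * (nd (q * α) * ((δ ^ 2) ^ 2 * K)) := by ring
    rw [h1]
    have h3 : δ ^ 4 * (nd (q * α) * ((δ ^ 2) ^ 2 * K)) ≤ δ ^ 4 * (16 * e) :=
      mul_le_mul_of_nonneg_left hq3 (by positivity)
    nlinarith

end Pool.Agent.Lib.H84V
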